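import Pool.Agent.Helper36.EX.Defs
import Pool.Agent.Helper16.SL.Defs

/-!
# EX (six lines, explicit exceptional set): the statements of the blocks (skeleton; not to be imported)

Copy your statement to your own file (namespace `Pool.Agent.EX`, import `Helper36/EX/Defs`).

THE ALGEBRA. `ℓ 0, …, ℓ 5` in `K^3`, any three independent, no conic through all. `x, x'` in `Ω^3`, `F = prd x x'` (a quadratic form with
`disc F = 0`), `u i = val F (ℓ i) = (ℓ i · x) (ℓ i · x')` in `D.U`, not all ratios constant. Then `F = ∑ u i G i` with the dual basis `G i` (block A2), and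
by block A1 there are integers `n i`, not all equal, with `disc (∑ T^(n i) u i G i) = 0` for all `T`. THE CORE (no arithmetic, any field `E` of characteristic `0`):
such a family has a constant kernel vector `L` in `⟨ℓ a, ℓ b⟩ ∩ ⟨ℓ c, ℓ d⟩`. Levels: `V_0` = minimal `n i`, …, `V_s` = maximal `n i`, `F_s` = the sum over `V_s`.
`disc F_0 = 0`, `dd F_0 F_1 = 0` (i.e. `val F_1 L_0 = 0`, `L_0` the kernel of `F_0`).
-/

set_option autoImplicit false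

namespace Pool.Agent.EX.Stmt

open Pool.Agent.EX MvPolynomial

/-! ## Block A1: spreading out. The monomials of `u` fall into classes (proportional over `K`); by `D.indep` the sum over each class is zero. The
exponents `e` with `∏ u i ^ e i` constant form a saturated subgroup of `ℤ^q` (`D.root`), which does not contain `e_i - e_j` if `u i / u j` is not constant: there is a
linear functional `n` on `ℚ^q` (then on `ℤ^q`, clear denominators) which vanishes on it, `n i ≠ n j` (`Submodule.exists_dual_map_eq_bot_of_notMem`).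
`n` is constant on the classes, so the part of `P` of weight `w` vanishes at `u`. -/
theorem spread {K Ω : Type*} [Field K] [Field Ω] [Algebra K Ω] (D : SL.Dat K Ω) {q : ℕ} (u : Fin q → Ω)
    (hu : ∀ i, D.U (u i)) (hnc : ∃ i j, ¬ SL.Cst K (u i / u j)) (P : MvPolynomial (Fin q) K) (hP : aeval u P = 0) :
    ∃ n : Fin q → ℤ, (∃ i j, n i ≠ n j) ∧ ∀ T : Ω, T ≠ 0 → aeval (fun i => T ^ n i * u i) P = 0 := by
  sorry

/-! ## Block A2: the dual basis -/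
theorem exists_dual {K : Type*} [Field K] (ℓ : Fin 6 → Fin 3 → K) (h : NC6 ℓ) :
    ∃ G : Fin 6 → Fin 6 → K, (∀ i j, val (G i) (ℓ j) = if i = j then 1 else 0) ∧
      ∀ (R : Type*) [CommRing R] [Algebra K R] (q : Fin 6 → R) (m : Fin 6),
        q m = ∑ i, val q (fun j => algebraMap K R (ℓ i j)) * algebraMap K R (G i m) := by
  sorry

section core

variable {E : Type*} [Field E] [CharZero E]

/-! ## Block B1: kernels -/
theorem exists_ker (q : Fin 6 → E) (h : disc q = 0) : ∃ L : Fin 3 → E, L ≠ 0 ∧ ∀ w, bil q L w = 0 := by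
  sorry

theorem three (q : Fin 6 → E) (hq : q ≠ 0) (L : Fin 3 → E) (hL : ∀ w, bil q L w = 0) (a b c : Fin 3 → E)
    (ha : val q a = 0) (hb : val q b = 0) (hc : val q c = 0) : det3 a b L = 0 ∨ det3 a c L = 0 ∨ det3 b c L = 0 := by
  sorry

/-- four zeros: a perfect matching (three possibilities); `L` is none of the points; the kernel is one-dimensional -/
theorem four (q : Fin 6 → E) (hq : q ≠ 0) (L : Fin 3 → E) (hL0 : L ≠ 0) (hL : ∀ w, bil q L w = 0) (a b c d : Fin 3 → E)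
    (habc : det3 a b c ≠ 0) (habd : det3 a b d ≠ 0) (hacd : det3 a c d ≠ 0) (hbcd : det3 b c d ≠ 0)
    (ha : val q a = 0) (hb : val q b = 0) (hc : val q c = 0) (hd : val q d = 0) :
    (det3 a b L = 0 ∧ det3 c d L = 0) ∨ (det3 a c L = 0 ∧ det3 b d L = 0) ∨ (det3 a d L = 0 ∧ det3 b c L = 0) := by
  sorry

theorem five (v : Fin 5 → Fin 3 → E) (hv : ∀ a b c, a ≠ b → a ≠ c → b ≠ c → det3 (v a) (v b) (v c) ≠ 0)
    (q : Fin 6 → E) (hq : q ≠ 0) (h : ∀ i, val q (v i) = 0) : disc q ≠ 0 := by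
  sorry

/-! ## Block B2: two levels (pencils) -/
theorem pencil (q r : Fin 6 → E) (h : ∀ T : E, disc (fun m => q m + T * r m) = 0) (hq : q ≠ 0) (a b c : Fin 3 → E)
    (habc : det3 a b c ≠ 0) (ha : val q a = 0) (hb : val q b = 0) (hc : val q c = 0)
    (hra : val r a ≠ 0) (hrb : val r b ≠ 0) (hrc : val r c ≠ 0) (L : Fin 3 → E) (hL : ∀ w, bil q L w = 0) :
    ∀ w, bil r L w = 0 := by
  sorry

/-! ## Block B3: three levels `{v 0, v 1}`, `{v 2, v 3}`, `{v 4, v 5}`, first kind: the kernel of `F_0` is on `⟨v 2, v 3⟩ ∩ ⟨v 4, v 5⟩`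

PROOF. `F_1` is zero at `v 4`, `v 5`, `L_0 = x v 4 + y v 5`, `x, y ≠ 0`, so `bil F_1 (v 4) (v 5) = 0`; also `bil F_0 (v 4) (v 5) = 0`; so `F_0 + S F_1` vanishes on
`⟨v 4, v 5⟩` and is singular; so the coefficient of `T^M`, `dd F_0 F_2`, is zero, `val F_2 L_0 = 0` (pull to `v 0`, `v 1`.., `L_0`).
`L_0 = x' v 2 + y' v 3` with `x', y' ≠ 0`, so `bil F_2 (v 2) (v 3) = 0`; so `L_2` is in `⟨v 2, v 3⟩` (otherwise `F_2 = 0`), so by `four` `L_2` is in `⟨v 0, v 1⟩ ∩ ⟨v 2, v 3⟩`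
(otherwise `L_2` is `v 2` or `v 3`). As before `bil F_1 (v 0) (v 1) = 0`, `bil F_2 (v 0) (v 1) = 0`, `bil F_0 (v 2) (v 3) = 0`.
If `L_0`, `L_2` are independent: `w` in `⟨v 4, v 5⟩ ∩ ⟨v 0, v 1⟩`; in the basis `L_0, L_2, w`: `F_1 = g X Y`, `F_0 = a Y Z`, `F_2 = b X Z`, `disc (F_0 + F_1 + F_2) = a b g ≠ 0`. So `L_2` is a multiple
of `L_0 = L`, and `bil F_1 L (v 4) = bil F_1 L (v 5) = bil F_1 L (v 0) = 0`. -/
theorem kindA (v : Fin 6 → Fin 3 → E) (hv : GP6 v) (F0 F1 F2 : Fin 6 → E) (α M : ℕ) (hα : 0 < α) (hM : α < M)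
    (h : ∀ T : E, disc (fun m => F0 m + T ^ α * F1 m + T ^ M * F2 m) = 0)
    (h0 : ∀ i, val F0 (v i) = 0 ↔ i ≠ 0 ∧ i ≠ 1) (h1 : ∀ i, val F1 (v i) = 0 ↔ i ≠ 2 ∧ i ≠ 3)
    (h2 : ∀ i, val F2 (v i) = 0 ↔ i ≠ 4 ∧ i ≠ 5) (L : Fin 3 → E) (hL0 : L ≠ 0) (hL : ∀ w, bil F0 L w = 0)
    (hLF1 : val F1 L = 0) (L' : Fin 3 → E) (hL'0 : L' ≠ 0) (hL' : ∀ w, bil F2 L' w = 0) (hL'F1 : val F1 L' = 0)
    (hA : det3 (v 2) (v 3) L = 0) (hA' : det3 (v 4) (v 5) L = 0) :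
    ∀ w, bil F1 L w = 0 ∧ bil F2 L w = 0 := by
  sorry

/-! ## Block B4: three levels, second kind

PROOF. Basis `I = p v 2`, `J = q v 3`, `N = L`, such that `L' = I + J + N` (up to a factor; all three coefficients of `L'` are nonzero). Then (up to factors)
`v 4 = x I + N`, `v 5 = y J + N`, `v 0 = z I + J + N`, `v 1 = I + w J + N`, `F0 = c0 X Y`, `F2 = c2 (X - Z) (Y - Z)`,
`F1 = a (X² + ρ Y² - ρ y Y Z - x X Z + (x - 1 + ρ (y - 1)) X Y)`, `z = ρ (1 - y)`, `ρ w = 1 - x` (`z, w ≠ 1`). `dd F0 F2 = - c0² c2 ≠ 0`, `dd F2 F0 ≠ 0`, so `M = 2 α` (coefficients of `T^M` and `T^(2 M)`: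
`disc = T^(2α) dd F1 F0 + T^M dd F0 F2 + T^(3α) disc F1 + T^(α+M) tri + T^(2α+M) dd F1 F2 + T^(2M) dd F2 F0`), so with `a = 1`, `Λ = c0 c2`:
`Λ = ρ x y`; `(y - x) (x - ρ y) = 0`; `(1 - ρ) (x - ρ y - (1 - ρ)) = 0`. If `x = y`, `ρ = 1` the conic `(X + Y) Z - x Z² - 2 X Y` contains the six points;
if `x = y`, `ρ ≠ 1` then `x = y = 1`, `z = 0`, and `v 3`, `v 5`, `v 0` are dependent; if `x = ρ y`, `ρ ≠ 1`: contradiction. -/
theorem kindB (v : Fin 6 → Fin 3 → E) (hv : GP6 v) (hnc : NC6 v) (F0 F1 F2 : Fin 6 → E) (α M : ℕ) (hα : 0 < α) (hM : α < M)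
    (h : ∀ T : E, disc (fun m => F0 m + T ^ α * F1 m + T ^ M * F2 m) = 0)
    (h0 : ∀ i, val F0 (v i) = 0 ↔ i ≠ 0 ∧ i ≠ 1) (h1 : ∀ i, val F1 (v i) = 0 ↔ i ≠ 2 ∧ i ≠ 3)
    (h2 : ∀ i, val F2 (v i) = 0 ↔ i ≠ 4 ∧ i ≠ 5) (L : Fin 3 → E) (hL0 : L ≠ 0) (hL : ∀ w, bil F0 L w = 0)
    (hLF1 : val F1 L = 0) (L' : Fin 3 → E) (hL'0 : L' ≠ 0) (hL' : ∀ w, bil F2 L' w = 0) (hL'F1 : val F1 L' = 0)
    (hA : det3 (v 2) (v 4) L = 0) (hA' : det3 (v 3) (v 5) L = 0)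
    (hB : det3 (v 0) (v 2) L' = 0) (hB' : det3 (v 1) (v 3) L' = 0) : False := by
  sorry

/-! ## Block B5, B6 (levels and assembly): the core -/
theorem core (v : Fin 6 → Fin 3 → E) (hv : GP6 v) (hnc : NC6 v) (q : Fin 6 → Fin 6 → E)
    (h1 : ∀ i j, val (q i) (v j) = 0 ↔ i ≠ j) (n : Fin 6 → ℤ) (hn : ∃ i j, n i ≠ n j)
    (h : ∀ T : E, T ≠ 0 → disc (fun m => ∑ i, T ^ n i * q i m) = 0) :
    ∃ L : Fin 3 → E, L ≠ 0 ∧ (∀ w, bil (fun m => ∑ i, q i m) L w = 0) ∧ ∃ a b c d : Fin 6,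
      a ≠ b ∧ a ≠ c ∧ a ≠ d ∧ b ≠ c ∧ b ≠ d ∧ c ≠ d ∧ det3 (v a) (v b) L = 0 ∧ det3 (v c) (v d) L = 0 := by
  sorry

end core

/-! ## Block C: the algebra, assembled (`n` = vector product of the nodes) -/
theorem alg {K Ω : Type*} [Field K] [CharZero K] [Field Ω] [Algebra K Ω] (D : SL.Dat K Ω) (ℓ : Fin 6 → Fin 3 → K)
    (hℓ : GP6 ℓ) (hnc : NC6 ℓ) (x x' : Fin 3 → Ω) (hx : x ≠ 0) (hx' : x' ≠ 0)
    (hu : ∀ i, D.U (dot (fun j => algebraMap K Ω (ℓ i j)) x * dot (fun j => algebraMap K Ω (ℓ i j)) x'))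
    (hc : ∃ i j, ¬ SL.Cst K ((dot (fun j => algebraMap K Ω (ℓ i j)) x * dot (fun j => algebraMap K Ω (ℓ i j)) x') /
      (dot (fun s => algebraMap K Ω (ℓ j s)) x * dot (fun s => algebraMap K Ω (ℓ j s)) x'))) :
    ∃ a b c d : Fin 6, a ≠ b ∧ a ≠ c ∧ a ≠ d ∧ b ≠ c ∧ b ≠ d ∧ c ≠ d ∧
      dot (fun j => algebraMap K Ω (crs (crs (ℓ a) (ℓ b)) (crs (ℓ c) (ℓ d)) j)) x = 0 ∧
      dot (fun j => algebraMap K Ω (crs (crs (ℓ a) (ℓ b)) (crs (ℓ c) (ℓ d)) j)) x' = 0 := by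
  sorry

end Pool.Agent.EX.Stmt
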