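import Mathlib

/-!
# EX (six lines, explicit exceptional set): definitions

Quadratic forms in three variables are given by their coefficients `q 0 X^2 + q 1 Y^2 + q 2 Z^2 + q 3 Y Z + q 4 X Z + q 5 X Y`.
-/

set_option autoImplicit false

namespace Pool.Agent.EX

section ring

variable {R : Type*} [CommRing R]

/-- determinant of three vectors -/
def det3 (a b c : Fin 3 → R) : R :=
  a 0 * (b 1 * c 2 - b 2 * c 1) - a 1 * (b 0 * c 2 - b 2 * c 0) + a 2 * (b 0 * c 1 - b 1 * c 0)

/-- scalar product -/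
def dot (a b : Fin 3 → R) : R := a 0 * b 0 + a 1 * b 1 + a 2 * b 2

/-- vector product -/
def crs (a b : Fin 3 → R) : Fin 3 → R :=
  ![a 1 * b 2 - a 2 * b 1, a 2 * b 0 - a 0 * b 2, a 0 * b 1 - a 1 * b 0]

/-- value of a quadratic form -/
def val (q : Fin 6 → R) (v : Fin 3 → R) : R :=
  q 0 * v 0 ^ 2 + q 1 * v 1 ^ 2 + q 2 * v 2 ^ 2 + q 3 * (v 1 * v 2) + q 4 * (v 0 * v 2) + q 5 * (v 0 * v 1)

/-- the bilinear form `q (v + w) - q v - q w` -/
def bil (q : Fin 6 → R) (v w : Fin 3 → R) : R :=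
  2 * q 0 * (v 0 * w 0) + 2 * q 1 * (v 1 * w 1) + 2 * q 2 * (v 2 * w 2) + q 3 * (v 1 * w 2 + v 2 * w 1) +
    q 4 * (v 0 * w 2 + v 2 * w 0) + q 5 * (v 0 * w 1 + v 1 * w 0)

/-- four times the determinant -/
def disc (q : Fin 6 → R) : R :=
  4 * q 0 * q 1 * q 2 + q 3 * q 4 * q 5 - q 0 * q 3 ^ 2 - q 1 * q 4 ^ 2 - q 2 * q 5 ^ 2

/-- derivative of `disc` at `q` in the direction `r` -/
def dd (q r : Fin 6 → R) : R :=
  4 * (r 0 * q 1 * q 2 + q 0 * r 1 * q 2 + q 0 * q 1 * r 2) + (r 3 * q 4 * q 5 + q 3 * r 4 * q 5 + q 3 * q 4 * r 5) -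
    (r 0 * q 3 ^ 2 + 2 * q 0 * q 3 * r 3) - (r 1 * q 4 ^ 2 + 2 * q 1 * q 4 * r 4) -
    (r 2 * q 5 ^ 2 + 2 * q 2 * q 5 * r 5)

/-- the mixed coefficient: `disc (q + r + s)` has the part `tri q r s` which is linear in each of `q`, `r`, `s` -/
def tri (q r s : Fin 6 → R) : R := dd (fun m => q m + r m) s - dd q s - dd r s

/-- product of two linear forms -/
def prd (x y : Fin 3 → R) : Fin 6 → R :=
  ![x 0 * y 0, x 1 * y 1, x 2 * y 2, x 1 * y 2 + x 2 * y 1, x 0 * y 2 + x 2 * y 0, x 0 * y 1 + x 1 * y 0]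

/-- the form in the coordinates with respect to `a`, `b`, `c` -/
def pull (q : Fin 6 → R) (a b c : Fin 3 → R) : Fin 6 → R :=
  ![val q a, val q b, val q c, bil q b c, bil q a c, bil q a b]

theorem disc_pull (q : Fin 6 → R) (a b c : Fin 3 → R) : disc (pull q a b c) = disc q * det3 a b c ^ 2 := by
  simp only [disc, pull, val, bil, det3, Matrix.cons_val]
  ring

theorem dd_pull (q r : Fin 6 → R) (a b c : Fin 3 → R) :
    dd (pull q a b c) (pull r a b c) = dd q r * det3 a b c ^ 2 := by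
  simp only [dd, pull, val, bil, det3, Matrix.cons_val]
  ring

theorem tri_pull (q r s : Fin 6 → R) (a b c : Fin 3 → R) :
    tri (pull q a b c) (pull r a b c) (pull s a b c) = tri q r s * det3 a b c ^ 2 := by
  have h1 : (fun m => pull q a b c m + pull r a b c m) = pull (fun m => q m + r m) a b c := by
    funext m
    fin_cases m <;> simp [pull, val, bil] <;> ring
  rw [tri, tri, h1, dd_pull, dd_pull, dd_pull]
  ring

theorem val_pull (q : Fin 6 → R) (a b c : Fin 3 → R) (x y z : R) :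
    val (pull q a b c) ![x, y, z] = val q (fun m => x * a m + y * b m + z * c m) := by
  simp only [pull, val, bil, Matrix.cons_val]
  ring

theorem disc_prd (x y : Fin 3 → R) : disc (prd x y) = 0 := by
  simp only [disc, prd, Matrix.cons_val]
  ring

theorem val_prd (x y v : Fin 3 → R) : val (prd x y) v = dot v x * dot v y := by
  simp only [val, prd, dot, Matrix.cons_val]
  ring

theorem bil_prd (x y v w : Fin 3 → R) : bil (prd x y) v w = dot v x * dot w y + dot w x * dot v y := by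
  simp only [bil, prd, dot, Matrix.cons_val]
  ring

/-- the cubic form `disc` -/
theorem disc_lin (q r s : Fin 6 → R) (x y z : R) :
    disc (fun m => x * q m + y * r m + z * s m) = x ^ 3 * disc q + y ^ 3 * disc r + z ^ 3 * disc s +
      x ^ 2 * y * dd q r + x ^ 2 * z * dd q s + y ^ 2 * x * dd r q + y ^ 2 * z * dd r s +
      z ^ 2 * x * dd s q + z ^ 2 * y * dd s r + x * y * z * tri q r s := by
  simp only [disc, dd, tri]
  ring

end ring

/-- any three of the vectors are independent -/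
def GP6 {E : Type*} [CommRing E] (v : Fin 6 → Fin 3 → E) : Prop :=
  ∀ a b c, a ≠ b → a ≠ c → b ≠ c → det3 (v a) (v b) (v c) ≠ 0

/-- no conic through the six vectors -/
def NC6 {E : Type*} [CommRing E] (v : Fin 6 → Fin 3 → E) : Prop :=
  ∀ q : Fin 6 → E, (∀ j, val q (v j) = 0) → q = 0

end Pool.Agent.EX
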