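import Pool.Agent.Helper36.EX.Core
import Pool.Agent.Helper77.EX.Spread
import Pool.Agent.Helper77.GS.Cl

/-!
# EX, block C: the algebra, assembled
-/

set_option autoImplicit false
set_option linter.unusedSectionVars false

namespace Pool.Agent.EX36

open Pool.Agent.EX MvPolynomial

section

variable {K Ω : Type*} [Field K] [Field Ω] [Algebra K Ω]

/-- base change of a vector -/
def bc (K Ω : Type*) [Field K] [Field Ω] [Algebra K Ω] {m : ℕ} (a : Fin m → K) : Fin m → Ω :=
  fun j => algebraMap K Ω (a j)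

theorem det3_bc (a b c : Fin 3 → K) : det3 (bc K Ω a) (bc K Ω b) (bc K Ω c) = algebraMap K Ω (det3 a b c) := by
  simp only [det3, bc, map_add, map_sub, map_mul]

theorem val_bc (q : Fin 6 → K) (a : Fin 3 → K) : val (bc K Ω q) (bc K Ω a) = algebraMap K Ω (val q a) := by
  simp only [val, bc, map_add, map_mul, map_pow]

theorem crs_bc (a b : Fin 3 → K) : crs (bc K Ω a) (bc K Ω b) = bc K Ω (crs a b) := by
  funext j
  fin_cases j <;> simp [crs, bc]

/-- a vector orthogonal to `P` and `Q` is orthogonal to `x` iff `P × Q` is -/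
theorem dot_crs_crs (P Q L x : Fin 3 → Ω) (hL0 : L ≠ 0) (hP : dot P L = 0) (hQ : dot Q L = 0) (hx : dot L x = 0) :
    dot (crs P Q) x = 0 := by
  obtain ⟨j, hj⟩ : ∃ j, L j ≠ 0 := by
    by_contra hcon
    push Not at hcon
    exact hL0 (funext hcon)
  have h1 : ∀ m j, crs P Q m * L j = crs P Q j * L m := by
    intro m j
    simp only [dot] at hP hQ
    fin_cases m <;> fin_cases j <;> simp only [crs, Matrix.cons_val, Fin.zero_eta, Fin.mk_one, Fin.reduceFinMk]
    · linear_combination Q 2 * hP - P 2 * hQ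
    · linear_combination P 1 * hQ - Q 1 * hP
    · linear_combination P 2 * hQ - Q 2 * hP
    · linear_combination Q 0 * hP - P 0 * hQ
    · linear_combination Q 1 * hP - P 1 * hQ
    · linear_combination P 0 * hQ - Q 0 * hP
  have h2 : L j * dot (crs P Q) x = 0 := by
    have e0 := h1 0 j
    have e1 := h1 1 j
    have e2 := h1 2 j
    simp only [dot] at hx ⊢
    linear_combination x 0 * e0 + x 1 * e1 + x 2 * e2 + crs P Q j * hx
  exact (mul_eq_zero.mp h2).resolve_left hj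

theorem dot_zero (x : Fin 3 → Ω) (h : ∀ w, dot w x = 0) : x = 0 := by
  have h0 := h ![1, 0, 0]
  have h1 := h ![0, 1, 0]
  have h2 := h ![0, 0, 1]
  simp only [dot, Matrix.cons_val] at h0 h1 h2
  funext j
  fin_cases j
  · show x 0 = 0
    linear_combination h0
  · show x 1 = 0
    linear_combination h1
  · show x 2 = 0
    linear_combination h2

theorem dot_of_bil [CharZero Ω] (x x' L : Fin 3 → Ω) (hx : x ≠ 0) (hx' : x' ≠ 0)
    (h : ∀ w, bil (prd x x') L w = 0) : dot L x = 0 ∧ dot L x' = 0 := by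
  have h1 := h L
  rw [bil_prd] at h1
  have h2 : dot L x * dot L x' = 0 := by
    have : (2 : Ω) * (dot L x * dot L x') = 0 := by linear_combination h1
    exact (mul_eq_zero.mp this).resolve_left two_ne_zero
  rcases mul_eq_zero.mp h2 with h3 | h3
  · refine ⟨h3, ?_⟩
    by_contra h4
    refine hx (dot_zero x fun w => ?_)
    have h5 := h w
    rw [bil_prd, h3, zero_mul, zero_add] at h5
    exact (mul_eq_zero.mp h5).resolve_right h4
  · refine ⟨?_, h3⟩
    by_contra h4
    refine hx' (dot_zero x' fun w => ?_)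
    have h5 := h w
    rw [bil_prd, h3, mul_zero, add_zero] at h5
    exact (mul_eq_zero.mp h5).resolve_left h4

theorem alg [CharZero K] (D : SL.Dat K Ω) (ℓ : Fin 6 → Fin 3 → K)
    (hℓ : GP6 ℓ) (hnc : NC6 ℓ) (x x' : Fin 3 → Ω) (hx : x ≠ 0) (hx' : x' ≠ 0)
    (hu : ∀ i, D.U (dot (fun j => algebraMap K Ω (ℓ i j)) x * dot (fun j => algebraMap K Ω (ℓ i j)) x'))
    (hc : ∃ i j, ¬ SL.Cst K ((dot (fun s => algebraMap K Ω (ℓ i s)) x * dot (fun s => algebraMap K Ω (ℓ i s)) x') /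
      (dot (fun s => algebraMap K Ω (ℓ j s)) x * dot (fun s => algebraMap K Ω (ℓ j s)) x'))) :
    ∃ a b c d : Fin 6, a ≠ b ∧ a ≠ c ∧ a ≠ d ∧ b ≠ c ∧ b ≠ d ∧ c ≠ d ∧
      dot (fun j => algebraMap K Ω (crs (crs (ℓ a) (ℓ b)) (crs (ℓ c) (ℓ d)) j)) x = 0 ∧
      dot (fun j => algebraMap K Ω (crs (crs (ℓ a) (ℓ b)) (crs (ℓ c) (ℓ d)) j)) x' = 0 := by
  have : CharZero Ω := charZero_of_injective_algebraMap (algebraMap K Ω).injective
  obtain ⟨G, hG, hR⟩ := exists_dual ℓ hnc
  set u : Fin 6 → Ω := fun i => dot (bc K Ω (ℓ i)) x * dot (bc K Ω (ℓ i)) x' with hudef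
  have hu' : ∀ i, D.U (u i) := hu
  have hval : ∀ i, val (prd x x') (bc K Ω (ℓ i)) = u i := fun i => val_prd _ _ _
  have hF : ∀ m, prd x x' m = ∑ i, u i * algebraMap K Ω (G i m) := by
    intro m
    rw [hR Ω (prd x x') m]
    exact Finset.sum_congr rfl fun i _ => by rw [← hval i]; rfl
  set P : MvPolynomial (Fin 6) K := disc (fun m => ∑ i, X i * C (G i m)) with hP
  have hev : ∀ w : Fin 6 → Ω, aeval w P = disc (fun m => ∑ i, w i * algebraMap K Ω (G i m)) := by
    intro w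
    have h1 := disc_map ((aeval w : MvPolynomial (Fin 6) K →ₐ[K] Ω) : MvPolynomial (Fin 6) K →+* Ω)
      (fun m => ∑ i, X i * C (G i m))
    rw [← hP, RingHom.coe_coe] at h1
    rw [h1]
    congr 1
    funext m
    rw [map_sum]
    refine Finset.sum_congr rfl fun i _ => ?_
    rw [map_mul, aeval_X, algHom_C]
  have hP0 : aeval u P = 0 := by
    rw [hev, ← show prd x x' = fun m => ∑ i, u i * algebraMap K Ω (G i m) from funext hF]
    exact disc_prd x x'
  obtain ⟨n, hn, hspread⟩ := spread D u hu' hc P hP0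
  have hv : GP6 (fun i => bc K Ω (ℓ i)) := by
    intro a b c hab hac hbc
    rw [det3_bc]
    exact (map_ne_zero _).mpr (hℓ a b c hab hac hbc)
  have hnc' : NC6 (fun i => bc K Ω (ℓ i)) := by
    intro q hq
    funext m
    rw [hR Ω q m]
    simp only [Pi.zero_apply]
    refine Finset.sum_eq_zero fun i _ => ?_
    rw [show val q (fun j => algebraMap K Ω (ℓ i j)) = 0 from hq i, zero_mul]
  have hqv : ∀ i j, val (fun m => u i * algebraMap K Ω (G i m)) (bc K Ω (ℓ j)) =
      u i * algebraMap K Ω (if i = j then 1 else 0) := by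
    intro i j
    rw [← hG i j, ← val_bc]
    simp only [val, bc]
    ring
  obtain ⟨L, hL0, hL, a, b, c, d, hab, hac, had, hbc, hbd, hcd, k, k'⟩ := core (fun i => bc K Ω (ℓ i)) hv hnc'
    (fun i m => u i * algebraMap K Ω (G i m)) (by
      intro i j
      rw [hqv]
      by_cases h : i = j
      · simp only [h, if_true, map_one, mul_one, ne_eq, not_true, iff_false]
        exact (hu' j).1
      · simp [h]) n hn (by
      intro T hT
      have h1 := hspread T hT
      rw [hev] at h1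
      rw [← h1]
      congr 1
      funext m
      exact Finset.sum_congr rfl fun i _ => by ring)
  have hsum : (fun m => ∑ i, u i * algebraMap K Ω (G i m)) = prd x x' := (funext hF).symm
  rw [hsum] at hL
  obtain ⟨hLx, hLx'⟩ := dot_of_bil x x' L hx hx' hL
  have hPL : dot (bc K Ω (crs (ℓ a) (ℓ b))) L = 0 := by
    rw [← crs_bc, det3_crs]; exact k
  have hQL : dot (bc K Ω (crs (ℓ c) (ℓ d))) L = 0 := by
    rw [← crs_bc, det3_crs]; exact k'
  refine ⟨a, b, c, d, hab, hac, had, hbc, hbd, hcd, ?_, ?_⟩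
  · have h1 := dot_crs_crs _ _ L x hL0 hPL hQL hLx
    rw [crs_bc] at h1
    exact h1
  · have h1 := dot_crs_crs _ _ L x' hL0 hPL hQL hLx'
    rw [crs_bc] at h1
    exact h1

end

section rank

universe u

variable {K Ω : Type u} [Field K] [Field Ω] [Algebra K Ω]

open Pool.Agent.GS

/-- if all the ratios of the values are constant, the point is algebraic (up to a factor) -/
theorem not_all_cst (ℓ : Fin 6 → Fin 3 → K) (hℓ : GP6 ℓ) (hnc : NC6 ℓ) (x x' : Fin 3 → Ω)
    (hu : ∀ i, dot (fun j => algebraMap K Ω (ℓ i j)) x * dot (fun j => algebraMap K Ω (ℓ i j)) x' ≠ 0)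
    (hrk : (1 : ℕ∞) ≤ GS.rk K (GS.Rat x)) :
    ∃ i j, ¬ SL.Cst K ((dot (fun s => algebraMap K Ω (ℓ i s)) x * dot (fun s => algebraMap K Ω (ℓ i s)) x') /
      (dot (fun s => algebraMap K Ω (ℓ j s)) x * dot (fun s => algebraMap K Ω (ℓ j s)) x')) := by
  by_contra hcon
  push Not at hcon
  obtain ⟨G, hG, hR⟩ := exists_dual ℓ hnc
  set y : Fin 6 → Ω := fun i => dot (bc K Ω (ℓ i)) x with hy
  set y' : Fin 6 → Ω := fun i => dot (bc K Ω (ℓ i)) x' with hy'
  have hyy : ∀ i, y i * y' i ≠ 0 := hu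
  have hy0 : ∀ i, y i ≠ 0 := fun i => left_ne_zero_of_mul (hyy i)
  choose c hc using fun i => hcon i 0
  have hc' : ∀ i, y i * y' i = algebraMap K Ω (c i) * (y 0 * y' 0) := by
    intro i
    rw [← hc i]
    exact (div_mul_cancel₀ _ (hyy 0)).symm
  have hc0 : ∀ i, c i ≠ 0 := by
    intro i h
    have := hc' i
    rw [h, map_zero, zero_mul] at this
    exact hyy i this
  -- the form over `K`
  set f : Fin 6 → K := fun m => ∑ i, c i * G i m with hf
  have hF : ∀ m, prd x x' m = algebraMap K Ω (f m) * (y 0 * y' 0) := by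
    intro m
    rw [hR Ω (prd x x') m, hf, map_sum, Finset.sum_mul]
    refine Finset.sum_congr rfl fun i _ => ?_
    rw [val_prd, map_mul]
    have h1 : dot (fun j => algebraMap K Ω (ℓ i j)) x * dot (fun j => algebraMap K Ω (ℓ i j)) x' =
      algebraMap K Ω (c i) * (y 0 * y' 0) := hc' i
    linear_combination algebraMap K Ω (G i m) * h1
  have hFv : ∀ w : Fin 3 → Ω, dot w x * dot w x' = val (bc K Ω f) w * (y 0 * y' 0) := by
    intro w
    rw [← val_prd]
    simp only [val, bc, hF]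
    ring
  have halg : ∀ i, y i / y 0 ∈ GS.cl K (∅ : Set Ω) := by
    intro i
    rw [GS.mem_cl]
    -- the quadratic equation
    set b : K := bil f (ℓ i) (ℓ 0) with hb
    have h0 : val (bc K Ω f) (bc K Ω (ℓ 0)) = 1 := by
      have := hFv (bc K Ω (ℓ 0))
      have h2 : (y 0 * y' 0) = val (bc K Ω f) (bc K Ω (ℓ 0)) * (y 0 * y' 0) := this
      have h3 : (val (bc K Ω f) (bc K Ω (ℓ 0)) - 1) * (y 0 * y' 0) = 0 := by linear_combination -h2
      have h4 := (mul_eq_zero.mp h3).resolve_right (hyy 0)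
      linear_combination h4
    have hi : val (bc K Ω f) (bc K Ω (ℓ i)) = algebraMap K Ω (c i) := by
      have h2 : y i * y' i = val (bc K Ω f) (bc K Ω (ℓ i)) * (y 0 * y' 0) := hFv (bc K Ω (ℓ i))
      rw [hc' i] at h2
      exact (mul_right_cancel₀ (hyy 0) h2).symm
    have hbb : bil (bc K Ω f) (bc K Ω (ℓ i)) (bc K Ω (ℓ 0)) = algebraMap K Ω b := by
      rw [hb]
      simp only [bil, bc, map_add, map_mul, map_ofNat]
    have hw : val (bc K Ω f) (fun m => y 0 * bc K Ω (ℓ i) m + (- y i) * bc K Ω (ℓ 0) m + 0 * bc K Ω (ℓ 0) m) = 0 := by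
      have h2 := hFv (fun m => y 0 * bc K Ω (ℓ i) m + (- y i) * bc K Ω (ℓ 0) m + 0 * bc K Ω (ℓ 0) m)
      have h3 : dot (fun m => y 0 * bc K Ω (ℓ i) m + (- y i) * bc K Ω (ℓ 0) m + 0 * bc K Ω (ℓ 0) m) x = 0 := by
        have : dot (fun m => y 0 * bc K Ω (ℓ i) m + (- y i) * bc K Ω (ℓ 0) m + 0 * bc K Ω (ℓ 0) m) x =
            y 0 * dot (bc K Ω (ℓ i)) x - y i * dot (bc K Ω (ℓ 0)) x := by
          simp only [dot]; ring
        rw [this]
        simp only [hy]
        ring
      rw [h3, zero_mul] at h2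
      exact (mul_eq_zero.mp h2.symm).resolve_right (hyy 0)
    rw [EX36.val_comb, h0, hi, hbb] at hw
    have hq : (y i / y 0) ^ 2 - algebraMap K Ω b * (y i / y 0) + algebraMap K Ω (c i) = 0 := by
      have h5 := hy0 0
      field_simp
      linear_combination hw
    set p : Polynomial K := Polynomial.X ^ 2 - Polynomial.C b * Polynomial.X + Polynomial.C (c i) with hp
    have hp0 : p ≠ 0 := by
      intro h6
      have h7 := congrArg (fun r => Polynomial.coeff r 0) h6
      simp [hp] at h7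
      exact hc0 i h7
    have halgK : IsAlgebraic K (y i / y 0) := by
      refine ⟨p, hp0, ?_⟩
      rw [hp]
      simp only [map_add, map_sub, map_mul, map_pow, Polynomial.aeval_X, Polynomial.aeval_C]
      exact hq
    exact halgK.extendScalars (algebraMap K (Algebra.adjoin K (∅ : Set Ω))).injective
  have hx : ∀ m, x m / y 0 ∈ GS.cl K (∅ : Set Ω) := by
    intro m
    have hD := hℓ 0 1 2 (by decide) (by decide) (by decide)
    have hDΩ : algebraMap K Ω (det3 (ℓ 0) (ℓ 1) (ℓ 2)) ≠ 0 := (map_ne_zero _).mpr hD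
    -- dual basis formula
    have h2 : ∀ m, algebraMap K Ω (det3 (ℓ 0) (ℓ 1) (ℓ 2)) * x m = algebraMap K Ω (crs (ℓ 1) (ℓ 2) m) * y 0 +
        algebraMap K Ω (crs (ℓ 2) (ℓ 0) m) * y 1 + algebraMap K Ω (crs (ℓ 0) (ℓ 1) m) * y 2 := by
      intro m
      simp only [hy, dot, bc, det3, crs]
      fin_cases m <;> simp only [Matrix.cons_val, map_add, map_sub, map_mul, Fin.zero_eta, Fin.mk_one,
        Fin.reduceFinMk] <;> ring
    have h3 : x m / y 0 = algebraMap K Ω (crs (ℓ 1) (ℓ 2) m / det3 (ℓ 0) (ℓ 1) (ℓ 2)) * (y 0 / y 0) +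
        algebraMap K Ω (crs (ℓ 2) (ℓ 0) m / det3 (ℓ 0) (ℓ 1) (ℓ 2)) * (y 1 / y 0) +
        algebraMap K Ω (crs (ℓ 0) (ℓ 1) m / det3 (ℓ 0) (ℓ 1) (ℓ 2)) * (y 2 / y 0) := by
      have h5 := hy0 0
      rw [map_div₀, map_div₀, map_div₀]
      field_simp
      linear_combination h2 m
    rw [h3]
    exact GS.cl_add (GS.cl_add (GS.cl_mul (GS.cl_cst _ _) (halg 0)) (GS.cl_mul (GS.cl_cst _ _) (halg 1)))
      (GS.cl_mul (GS.cl_cst _ _) (halg 2))
  have hrat : GS.Rat x ⊆ GS.cl K (∅ : Set Ω) := by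
    rintro _ ⟨a, b, rfl⟩
    have h2 : x a / x b = (x a / y 0) / (x b / y 0) := by
      rcases eq_or_ne (x b) 0 with hb | hb
      · rw [hb, div_zero, zero_div, div_zero]
      · have := hy0 0
        field_simp
    rw [h2]
    exact GS.cl_div (hx a) (hx b)
  have h1 : GS.rk K (GS.Rat x) ≤ 0 := by
    refine (GS.rk_le_of_subset hrat).trans ?_
    refine (GS.rk_le_card _).trans ?_
    simp
  have h2 : (1 : ℕ∞) ≤ 0 := hrk.trans h1
  exact absurd h2 (by simp)

/-- the version for the germs of points of degree at most two -/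
theorem alg' [CharZero K] (D : SL.Dat K Ω) (ℓ : Fin 6 → Fin 3 → K) (hℓ : GP6 ℓ) (hnc : NC6 ℓ) (x x' : Fin 3 → Ω)
    (hu : ∀ i, D.U (dot (fun j => algebraMap K Ω (ℓ i j)) x * dot (fun j => algebraMap K Ω (ℓ i j)) x'))
    (hrk : (1 : ℕ∞) ≤ GS.rk K (GS.Rat x)) :
    ∃ a b c d : Fin 6, a ≠ b ∧ a ≠ c ∧ a ≠ d ∧ b ≠ c ∧ b ≠ d ∧ c ≠ d ∧
      dot (fun j => algebraMap K Ω (crs (crs (ℓ a) (ℓ b)) (crs (ℓ c) (ℓ d)) j)) x = 0 ∧
      dot (fun j => algebraMap K Ω (crs (crs (ℓ a) (ℓ b)) (crs (ℓ c) (ℓ d)) j)) x' = 0 := by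
  refine alg D ℓ hℓ hnc x x' ?_ ?_ hu (not_all_cst ℓ hℓ hnc x x' (fun i => (hu i).1) hrk)
  · rintro rfl
    exact (hu 0).1 (by simp [dot])
  · rintro rfl
    exact (hu 0).1 (by simp [dot])

end rank

end Pool.Agent.EX36
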