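import Pool.Agent.Helper36.EX.Levels
import Pool.Agent.Helper77.EX.KindA
import Pool.Agent.Helper77.EX.KindB

/-!
# EX, block B6: the core
-/

set_option autoImplicit false
set_option linter.unusedSectionVars false
set_option linter.unusedVariables false

namespace Pool.Agent.EX36

open Pool.Agent.EX Polynomial

variable {E : Type*} [Field E] [CharZero E]

/-- the hypotheses -/
structure Hyp (v : Fin 6 → Fin 3 → E) (q : Fin 6 → Fin 6 → E) (n : Fin 6 → ℤ) : Prop where
  gp : GP6 v
  nc : NC6 v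
  h1 : ∀ i j, val (q i) (v j) = 0 ↔ i ≠ j
  mono : Monotone n
  lt : n 0 < n 5
  h : ∀ T : E, T ≠ 0 → disc (fun m => ∑ i, T ^ n i * q i m) = 0

/-- the conclusion -/
def Concl (v : Fin 6 → Fin 3 → E) (q : Fin 6 → Fin 6 → E) : Prop :=
  ∃ L : Fin 3 → E, L ≠ 0 ∧ (∀ w, bil (fun m => ∑ i, q i m) L w = 0) ∧ ∃ a b c d : Fin 6,
      a ≠ b ∧ a ≠ c ∧ a ≠ d ∧ b ≠ c ∧ b ≠ d ∧ c ≠ d ∧ det3 (v a) (v b) L = 0 ∧ det3 (v c) (v d) L = 0

theorem gp_perm (v : Fin 6 → Fin 3 → E) (hv : GP6 v) (σ : Fin 6 → Fin 6) (hσ : Function.Injective σ) :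
    GP6 fun i => v (σ i) := fun a b c hab hac hbc =>
  hv _ _ _ (fun h => hab (hσ h)) (fun h => hac (hσ h)) (fun h => hbc (hσ h))

theorem nc_perm (v : Fin 6 → Fin 3 → E) (hv : NC6 v) (σ : Fin 6 → Fin 6) (hσ : Function.Surjective σ) :
    NC6 fun i => v (σ i) := by
  intro q h
  refine hv q fun j => ?_
  obtain ⟨i, rfl⟩ := hσ j
  exact h i

theorem concl_perm (v : Fin 6 → Fin 3 → E) (q : Fin 6 → Fin 6 → E) (σ : Equiv.Perm (Fin 6))
    (h : Concl (fun i => v (σ i)) fun i => q (σ i)) : Concl v q := by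
  obtain ⟨L, hL0, hL, a, b, c, d, hab, hac, had, hbc, hbd, hcd, h1, h2⟩ := h
  refine ⟨L, hL0, ?_, σ a, σ b, σ c, σ d, ?_, ?_, ?_, ?_, ?_, ?_, h1, h2⟩
  · intro w
    have h3 : (fun m => ∑ i, q (σ i) m) = fun m => ∑ i, q i m := by
      funext m
      exact Equiv.sum_comp σ fun i => q i m
    rw [← h3]
    exact hL w
  all_goals
    intro h4
    have := σ.injective h4
    contradiction

theorem hyp_rev (v : Fin 6 → Fin 3 → E) (q : Fin 6 → Fin 6 → E) (n : Fin 6 → ℤ) (H : Hyp v q n) :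
    Hyp (fun i => v (Fin.revPerm i)) (fun i => q (Fin.revPerm i)) fun i => - n (Fin.revPerm i) where
  gp := gp_perm v H.gp _ Fin.revPerm.injective
  nc := nc_perm v H.nc _ Fin.revPerm.surjective
  h1 i j := by
    rw [H.h1]
    exact not_congr Fin.revPerm.injective.eq_iff
  mono := by
    intro i j hij
    exact neg_le_neg (H.mono (Fin.rev_le_rev.mpr hij))
  lt := neg_lt_neg H.lt
  h T hT := by
    have h2 := H.h T⁻¹ (inv_ne_zero hT)
    have h3 : (fun m => ∑ i, T ^ (- n (Fin.revPerm i)) * q (Fin.revPerm i) m) = fun m => ∑ i, T⁻¹ ^ n i * q i m := by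
      funext m
      rw [← Equiv.sum_comp Fin.revPerm fun i => T⁻¹ ^ n i * q i m]
      simp [zpow_neg]
    rw [h3]
    exact h2

section

variable {v : Fin 6 → Fin 3 → E} {q : Fin 6 → Fin 6 → E} {n : Fin 6 → ℤ}

theorem Hyp.low (H : Hyp v q n) (b : ℤ) (hb : n 0 < b) (h : ∀ i, n i = n 0 ∨ b ≤ n i) :
    disc (A q n (n 0)) = 0 ∧ dd (A q n (n 0)) (A q n b) = 0 := EX36.low q n H.h (n 0) b hb h

theorem Hyp.high (H : Hyp v q n) (b : ℤ) (hb : b < n 5) (h : ∀ i, n i = n 5 ∨ n i ≤ b) :
    disc (A q n (n 5)) = 0 ∧ dd (A q n (n 5)) (A q n b) = 0 := EX36.high q n H.h (n 5) b hb h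

theorem Hyp.le (H : Hyp v q n) : n 0 ≤ n 1 ∧ n 1 ≤ n 2 ∧ n 2 ≤ n 3 ∧ n 3 ≤ n 4 ∧ n 4 ≤ n 5 :=
  ⟨H.mono (by decide), H.mono (by decide), H.mono (by decide), H.mono (by decide), H.mono (by decide)⟩

/-- the lowest level has at least two elements -/
theorem Hyp.e01 (H : Hyp v q n) : n 0 = n 1 := by
  by_contra h01
  obtain ⟨l1, l2, l3, l4, l5⟩ := H.le
  refine single q n (n 0) v H.gp H.h1 0 rfl ?_ (H.low (n 1) (by omega) ?_).1
  · intro i hi
    by_contra h0
    have h2 : n 1 ≤ n i := H.mono (by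
      rw [Fin.le_def]
      have : (i : ℕ) ≠ 0 := fun h => h0 (Fin.ext h)
      show 1 ≤ (i : ℕ)
      omega)
    omega
  · intro i
    by_cases h0 : i = 0
    · left; rw [h0]
    · right
      refine H.mono ?_
      rw [Fin.le_def]
      have : (i : ℕ) ≠ 0 := fun h => h0 (Fin.ext h)
      show 1 ≤ (i : ℕ)
      omega

theorem Hyp.e45 (H : Hyp v q n) : n 4 = n 5 := by
  have h1 := (hyp_rev v q n H).e01
  have h2 : (Fin.revPerm (0 : Fin 6)) = 5 := by decide
  have h3 : (Fin.revPerm (1 : Fin 6)) = 4 := by decide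
  simp only [h2, h3] at h1
  omega

theorem six {P : Fin 6 → Prop} (h0 : P 0) (h1 : P 1) (h2 : P 2) (h3 : P 3) (h4 : P 4) (h5 : P 5) (i : Fin 6) : P i := by
  fin_cases i
  · exact h0
  · exact h1
  · exact h2
  · exact h3
  · exact h4
  · exact h5

/-- the sum of all is the sum over two levels -/
theorem sum_two (a b : ℤ) (hab : a ≠ b) (h : ∀ i, n i = a ∨ n i = b) (m : Fin 6) :
    ∑ i, q i m = A q n a m + A q n b m := by
  simp only [A, ← Finset.sum_add_distrib]
  refine Finset.sum_congr rfl fun i _ => ?_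
  rcases h i with h1 | h1
  · have : n i ≠ b := by omega
    simp [h1, hab]
  · have : n i ≠ a := by omega
    simp [h1, Ne.symm hab]

theorem bil_add (r s : Fin 6 → E) (L w : Fin 3 → E) : bil (fun m => r m + s m) L w = bil r L w + bil s L w := by
  simp only [bil]
  ring

/-- two levels, the upper one with at least three elements -/
theorem Hyp.two (H : Hyp v q n) (h3 : n 3 = n 5) (h2 : n 2 = n 0 ∨ n 2 = n 5) : Concl v q := by
  obtain ⟨l1, l2, l3, l4, l5⟩ := H.le
  have e01 := H.e01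
  have e45 := H.e45
  have hlt := H.lt
  have all : ∀ i, n i = n 0 ∨ n i = n 5 := six (Or.inl rfl) (Or.inl e01.symm) h2 (Or.inr h3) (Or.inr e45) (Or.inr rfl)
  obtain ⟨d0, d01⟩ := H.low (n 5) hlt (fun i => (all i).imp id fun h => h.ge)
  obtain ⟨d1, d10⟩ := H.high (n 0) hlt (fun i => (all i).symm.imp id fun h => h.le)
  have hne : A q n (n 0) ≠ 0 := A_ne q n _ v H.h1 0 rfl
  have hne5 : A q n (n 5) ≠ 0 := A_ne q n _ v H.h1 5 rfl
  obtain ⟨L, hL0, hL⟩ := exists_ker _ d0
  have z : ∀ j, n j ≠ n 0 → val (A q n (n 0)) (v j) = 0 := fun j hj => (val_A_iff q n _ v H.h1 j).mpr hj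
  have z5 : ∀ j, n j ≠ n 5 → val (A q n (n 5)) (v j) = 0 := fun j hj => (val_A_iff q n _ v H.h1 j).mpr hj
  have w5 : ∀ j, n j = n 5 → val (A q n (n 5)) (v j) ≠ 0 := fun j hj =>
    (val_A_iff q n _ v H.h1 j).not.mpr (by simp [hj])
  have hL5 : ∀ w, bil (A q n (n 5)) L w = 0 := by
    refine pencil (A q n (n 0)) (A q n (n 5)) ?_ hne (v 3) (v 4) (v 5) (H.gp 3 4 5 (by decide) (by decide) (by decide))
      (z 3 (by omega)) (z 4 (by omega)) (z 5 (by omega)) (w5 3 h3) (w5 4 e45) (w5 5 rfl) L hL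
    intro T
    rw [disc_two', d0, d01, d10, d1]
    ring
  have hsum : ∀ w, bil (fun m => ∑ i, q i m) L w = 0 := by
    intro w
    have h4 : (fun m => ∑ i, q i m) = fun m => A q n (n 0) m + A q n (n 5) m := by
      funext m
      exact sum_two _ _ (by omega) all m
    rw [h4, bil_add, hL, hL5, add_zero]
  rcases h2 with h2 | h2
  · -- three and three
    rcases three _ hne L hL (v 3) (v 4) (v 5) (z 3 (by omega)) (z 4 (by omega)) (z 5 (by omega)) with k | k | k <;>
    rcases three _ hne5 L hL5 (v 0) (v 1) (v 2) (z5 0 (by omega)) (z5 1 (by omega)) (z5 2 (by omega)) with k' | k' | k'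
    · exact ⟨L, hL0, hsum, 3, 4, 0, 1, by decide, by decide, by decide, by decide, by decide, by decide, k, k'⟩
    · exact ⟨L, hL0, hsum, 3, 4, 0, 2, by decide, by decide, by decide, by decide, by decide, by decide, k, k'⟩
    · exact ⟨L, hL0, hsum, 3, 4, 1, 2, by decide, by decide, by decide, by decide, by decide, by decide, k, k'⟩
    · exact ⟨L, hL0, hsum, 3, 5, 0, 1, by decide, by decide, by decide, by decide, by decide, by decide, k, k'⟩
    · exact ⟨L, hL0, hsum, 3, 5, 0, 2, by decide, by decide, by decide, by decide, by decide, by decide, k, k'⟩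
    · exact ⟨L, hL0, hsum, 3, 5, 1, 2, by decide, by decide, by decide, by decide, by decide, by decide, k, k'⟩
    · exact ⟨L, hL0, hsum, 4, 5, 0, 1, by decide, by decide, by decide, by decide, by decide, by decide, k, k'⟩
    · exact ⟨L, hL0, hsum, 4, 5, 0, 2, by decide, by decide, by decide, by decide, by decide, by decide, k, k'⟩
    · exact ⟨L, hL0, hsum, 4, 5, 1, 2, by decide, by decide, by decide, by decide, by decide, by decide, k, k'⟩
  · -- two and four
    rcases four _ hne L hL0 hL (v 2) (v 3) (v 4) (v 5) (H.gp 2 3 4 (by decide) (by decide) (by decide))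
      (H.gp 2 3 5 (by decide) (by decide) (by decide)) (H.gp 2 4 5 (by decide) (by decide) (by decide))
      (H.gp 3 4 5 (by decide) (by decide) (by decide)) (z 2 (by omega)) (z 3 (by omega)) (z 4 (by omega))
      (z 5 (by omega)) with ⟨k, k'⟩ | ⟨k, k'⟩ | ⟨k, k'⟩
    · exact ⟨L, hL0, hsum, 2, 3, 4, 5, by decide, by decide, by decide, by decide, by decide, by decide, k, k'⟩
    · exact ⟨L, hL0, hsum, 2, 4, 3, 5, by decide, by decide, by decide, by decide, by decide, by decide, k, k'⟩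
    · exact ⟨L, hL0, hsum, 2, 5, 3, 4, by decide, by decide, by decide, by decide, by decide, by decide, k, k'⟩

/-- a form vanishing at `x`, `y` and at a third point of the line is singular -/
theorem disc_three_zeros (r : Fin 6 → E) (x y z L : Fin 3 → E) (hxyz : det3 x y z ≠ 0) (hL0 : L ≠ 0)
    (hxy : det3 x y L = 0) (hx : ∀ t : E, L ≠ fun m => t * x m) (hy : ∀ t : E, L ≠ fun m => t * y m)
    (h1 : val r x = 0) (h2 : val r y = 0) (hrL : val r L = 0) : disc r = 0 := by
  obtain ⟨s, t, hst⟩ := comb hxyz hxy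
  have hs : s ≠ 0 := by
    rintro rfl
    exact hy t (funext fun m => by rw [hst]; ring)
  have ht : t ≠ 0 := by
    rintro rfl
    exact hx s (funext fun m => by rw [hst]; ring)
  rw [EX.val_comb r x y L s t hst, h1, h2] at hrL
  have h3 : bil r x y = 0 := by
    have h4 : (s * t) * bil r x y = 0 := by linear_combination hrL
    exact (mul_eq_zero.mp h4).resolve_left (mul_ne_zero hs ht)
  exact disc_line r x y z hxyz h1 h2 h3

/-- the second level has at least two elements if the first has two -/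
theorem Hyp.second (H : Hyp v q n) (h12 : n 1 < n 2) : n 2 = n 3 := by
  by_contra h23
  obtain ⟨l1, l2, l3, l4, l5⟩ := H.le
  have e01 := H.e01
  have e45 := H.e45
  have hd : disc (A q n (n 2)) ≠ 0 := by
    refine single q n (n 2) v H.gp H.h1 2 rfl ?_
    refine six ?_ ?_ ?_ ?_ ?_ ?_ <;> intro h <;> omega
  obtain ⟨d0, d01⟩ := H.low (n 2) (by omega) (six (Or.inl rfl) (Or.inl e01.symm) (Or.inr le_rfl) (Or.inr (by omega))
    (Or.inr (by omega)) (Or.inr (by omega)))
  have hne : A q n (n 0) ≠ 0 := A_ne q n _ v H.h1 0 rfl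
  obtain ⟨L, hL0, hL⟩ := exists_ker _ d0
  have z : ∀ j, n j ≠ n 0 → val (A q n (n 0)) (v j) = 0 := fun j hj => (val_A_iff q n _ v H.h1 j).mpr hj
  have z2 : ∀ j, n j ≠ n 2 → val (A q n (n 2)) (v j) = 0 := fun j hj => (val_A_iff q n _ v H.h1 j).mpr hj
  -- `L` is not proportional to one of the four
  have g : ∀ x y z : Fin 6, x ≠ y → x ≠ z → y ≠ z → det3 (v x) (v y) (v z) ≠ 0 := H.gp
  have zz := z
  have npar : ∀ x y z w : Fin 6, x ≠ y → x ≠ z → x ≠ w → y ≠ z → y ≠ w → z ≠ w → n y ≠ n 0 → n z ≠ n 0 → n w ≠ n 0 →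
      ∀ t : E, L ≠ fun m => t * v x m := by
    intro x y z w hxy hxz hxw hyz hyw hzw ny nz nw t ht
    have hyL : ∀ y : Fin 3 → E, det3 (v x) y L = 0 := by
      intro y
      rw [ht]
      simp only [det3]
      ring
    exact no_two _ hne L hL0 hL (v x) (v y) (v z) (v w) (g x y z hxy hxz hyz) (g x y w hxy hxw hyw) (g x z w hxz hxw hzw)
      (zz y ny) (zz z nz) (zz w nw) (hyL _) (hyL _)
  have hrL : val (A q n (n 2)) L = 0 := by
    rcases exists_pair (v 3) (v 4) (v 5) L (g 3 4 5 (by decide) (by decide) (by decide)) hL0 with h1 | h1 | h1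
    · exact (val_ker _ _ hne _ _ L h1 (z 3 (by omega)) (z 4 (by omega)) hL d01).1
    · exact (val_ker _ _ hne _ _ L h1 (z 3 (by omega)) (z 5 (by omega)) hL d01).1
    · exact (val_ker _ _ hne _ _ L h1 (z 4 (by omega)) (z 5 (by omega)) hL d01).1
  rcases four _ hne L hL0 hL (v 2) (v 3) (v 4) (v 5) (g 2 3 4 (by decide) (by decide) (by decide))
      (g 2 3 5 (by decide) (by decide) (by decide)) (g 2 4 5 (by decide) (by decide) (by decide))
      (g 3 4 5 (by decide) (by decide) (by decide)) (z 2 (by omega)) (z 3 (by omega)) (z 4 (by omega))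
      (z 5 (by omega)) with ⟨-, k'⟩ | ⟨-, k'⟩ | ⟨-, k'⟩
  · exact hd (disc_three_zeros _ (v 4) (v 5) (v 2) L (g 4 5 2 (by decide) (by decide) (by decide)) hL0 k'
      (npar 4 2 3 5 (by decide) (by decide) (by decide) (by decide) (by decide) (by decide) (by omega) (by omega) (by omega))
      (npar 5 2 3 4 (by decide) (by decide) (by decide) (by decide) (by decide) (by decide) (by omega) (by omega) (by omega))
      (z2 4 (by omega)) (z2 5 (by omega)) hrL)
  · exact hd (disc_three_zeros _ (v 3) (v 5) (v 2) L (g 3 5 2 (by decide) (by decide) (by decide)) hL0 k'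
      (npar 3 2 4 5 (by decide) (by decide) (by decide) (by decide) (by decide) (by decide) (by omega) (by omega) (by omega))
      (npar 5 2 3 4 (by decide) (by decide) (by decide) (by decide) (by decide) (by decide) (by omega) (by omega) (by omega))
      (z2 3 (by omega)) (z2 5 (by omega)) hrL)
  · exact hd (disc_three_zeros _ (v 3) (v 4) (v 2) L (g 3 4 2 (by decide) (by decide) (by decide)) hL0 k'
      (npar 3 2 4 5 (by decide) (by decide) (by decide) (by decide) (by decide) (by decide) (by omega) (by omega) (by omega))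
      (npar 4 2 3 5 (by decide) (by decide) (by decide) (by decide) (by decide) (by decide) (by omega) (by omega) (by omega))
      (z2 3 (by omega)) (z2 4 (by omega)) hrL)

theorem Hyp.second' (H : Hyp v q n) (h34 : n 3 < n 4) : n 2 = n 3 := by
  have h1 := (hyp_rev v q n H).second
  have r1 : (Fin.revPerm (1 : Fin 6)) = 4 := by decide
  have r2 : (Fin.revPerm (2 : Fin 6)) = 3 := by decide
  have r3 : (Fin.revPerm (3 : Fin 6)) = 2 := by decide
  simp only [r1, r2, r3] at h1
  have := h1 (by omega)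
  omega

/-- three levels of two elements -/
theorem Hyp.three (H : Hyp v q n) (h12 : n 1 < n 2) (h23 : n 2 = n 3) (h34 : n 3 < n 4) : Concl v q := by
  have e01 := H.e01
  have e45 := H.e45
  have g : ∀ x y z : Fin 6, x ≠ y → x ≠ z → y ≠ z → det3 (v x) (v y) (v z) ≠ 0 := H.gp
  obtain ⟨d0, d01⟩ := H.low (n 2) (by omega) (six (Or.inl rfl) (Or.inl e01.symm) (Or.inr le_rfl) (Or.inr h23.le)
    (Or.inr (by omega)) (Or.inr (by omega)))
  obtain ⟨d2, d21⟩ := H.high (n 2) (by omega) (six (Or.inr (by omega)) (Or.inr (by omega)) (Or.inr le_rfl)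
    (Or.inr h23.ge) (Or.inl e45) (Or.inl rfl))
  set F0 := A q n (n 0) with hF0
  set F1 := A q n (n 2) with hF1
  set F2 := A q n (n 5) with hF2
  have h0 : ∀ i, val F0 (v i) = 0 ↔ i ≠ 0 ∧ i ≠ 1 := by
    intro i
    rw [hF0, val_A_iff q n _ v H.h1]
    revert i
    refine six ?_ ?_ ?_ ?_ ?_ ?_
    · simp
    · simp [e01]
    all_goals
      constructor
      · intro _; decide
      · intro _; omega
  have h1 : ∀ i, val F1 (v i) = 0 ↔ i ≠ 2 ∧ i ≠ 3 := by
    intro i
    rw [hF1, val_A_iff q n _ v H.h1]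
    revert i
    refine six ?_ ?_ ?_ ?_ ?_ ?_
    · constructor
      · intro _; decide
      · intro _; omega
    · constructor
      · intro _; decide
      · intro _; omega
    · simp
    · simp [h23]
    all_goals
      constructor
      · intro _; decide
      · intro _; omega
  have h2 : ∀ i, val F2 (v i) = 0 ↔ i ≠ 4 ∧ i ≠ 5 := by
    intro i
    rw [hF2, val_A_iff q n _ v H.h1]
    revert i
    refine six ?_ ?_ ?_ ?_ ?_ ?_
    all_goals first
      | (constructor
         · intro _; decide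
         · intro _; omega)
      | simp [e45]
  set α : ℕ := (n 2 - n 0).toNat with hα
  set M : ℕ := (n 5 - n 0).toNat with hM
  have hα0 : 0 < α := by omega
  have hαM : α < M := by omega
  have hαz : (α : ℤ) = n 2 - n 0 := by omega
  have hMz : (M : ℤ) = n 5 - n 0 := by omega
  have hsum : ∀ (T : E), T ≠ 0 → ∀ m, ∑ i, T ^ n i * q i m = T ^ n 0 * (F0 m + T ^ α * F1 m + T ^ M * F2 m) := by
    intro T hT m
    have hz : ∀ i, T ^ n i * q i m = T ^ n 0 * ((if n i = n 0 then q i m else 0) + T ^ α * (if n i = n 2 then q i m else 0) +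
        T ^ M * (if n i = n 5 then q i m else 0)) := by
      have e0 : T ^ n 2 = T ^ n 0 * T ^ α := by
        rw [← zpow_natCast, ← zpow_add₀ hT]
        congr 1
        omega
      have e5 : T ^ n 5 = T ^ n 0 * T ^ M := by
        rw [← zpow_natCast, ← zpow_add₀ hT]
        congr 1
        omega
      intro i
      have hi : n i = n 0 ∨ n i = n 2 ∨ n i = n 5 :=
        six (P := fun i => n i = n 0 ∨ n i = n 2 ∨ n i = n 5) (Or.inl rfl) (Or.inl e01.symm) (Or.inr (Or.inl rfl))
          (Or.inr (Or.inl h23.symm)) (Or.inr (Or.inr e45)) (Or.inr (Or.inr rfl)) i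
      rcases hi with hi | hi | hi
      · have a1 : n 0 ≠ n 2 := by omega
        have a2 : n 0 ≠ n 5 := by omega
        simp [hi, a1, a2]
      · have a1 : n 2 ≠ n 0 := by omega
        have a2 : n 2 ≠ n 5 := by omega
        simp only [hi, a1, a2, if_false, if_true, e0]
        ring
      · have a1 : n 5 ≠ n 0 := by omega
        have a2 : n 5 ≠ n 2 := by omega
        simp only [hi, a1, a2, if_false, if_true, e5]
        ring
    rw [Finset.sum_congr rfl fun i _ => hz i, ← Finset.mul_sum, Finset.sum_add_distrib, Finset.sum_add_distrib,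
      ← Finset.mul_sum, ← Finset.mul_sum]
    rfl
  have hT : ∀ T : E, disc (fun m => F0 m + T ^ α * F1 m + T ^ M * F2 m) = 0 := by
    intro T
    by_cases hT : T = 0
    · rw [hT]
      have : (fun m => F0 m + (0 : E) ^ α * F1 m + 0 ^ M * F2 m) = F0 := by
        funext m
        rw [zero_pow hα0.ne', zero_pow (by omega)]
        ring
      rw [this]
      exact d0
    · have h3 := H.h T hT
      rw [show (fun m => ∑ i, T ^ n i * q i m) = fun m => T ^ n 0 * (F0 m + T ^ α * F1 m + T ^ M * F2 m) from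
        funext (hsum T hT), disc_smul] at h3
      exact (mul_eq_zero.mp h3).resolve_left (pow_ne_zero _ (zpow_ne_zero _ hT))
  have hfin : ∀ L : Fin 3 → E, (∀ w, bil F0 L w = 0) → (∀ w, bil F1 L w = 0) → (∀ w, bil F2 L w = 0) →
      ∀ w, bil (fun m => ∑ i, q i m) L w = 0 := by
    intro L k0 k1 k2 w
    have h3 : (fun m => ∑ i, q i m) = fun m => (F0 m + F1 m) + F2 m := by
      funext m
      have := hsum 1 one_ne_zero m
      simpa using this
    rw [h3, bil_add, bil_add, k0, k1, k2]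
    ring
  have hne0 : F0 ≠ 0 := A_ne q n _ v H.h1 0 rfl
  have hne2 : F2 ≠ 0 := A_ne q n _ v H.h1 5 rfl
  obtain ⟨L, hL0, hL⟩ := exists_ker _ d0
  obtain ⟨L', hL'0, hL'⟩ := exists_ker _ d2
  have hrL : val F1 L = 0 := by
    rcases exists_pair (v 3) (v 4) (v 5) L (g 3 4 5 (by decide) (by decide) (by decide)) hL0 with h3 | h3 | h3
    · exact (val_ker _ _ hne0 _ _ L h3 ((h0 3).mpr (by decide)) ((h0 4).mpr (by decide)) hL d01).1
    · exact (val_ker _ _ hne0 _ _ L h3 ((h0 3).mpr (by decide)) ((h0 5).mpr (by decide)) hL d01).1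
    · exact (val_ker _ _ hne0 _ _ L h3 ((h0 4).mpr (by decide)) ((h0 5).mpr (by decide)) hL d01).1
  have hrL' : val F1 L' = 0 := by
    rcases exists_pair (v 0) (v 1) (v 2) L' (g 0 1 2 (by decide) (by decide) (by decide)) hL'0 with h3 | h3 | h3
    · exact (val_ker _ _ hne2 _ _ L' h3 ((h2 0).mpr (by decide)) ((h2 1).mpr (by decide)) hL' d21).1
    · exact (val_ker _ _ hne2 _ _ L' h3 ((h2 0).mpr (by decide)) ((h2 2).mpr (by decide)) hL' d21).1
    · exact (val_ker _ _ hne2 _ _ L' h3 ((h2 1).mpr (by decide)) ((h2 2).mpr (by decide)) hL' d21).1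
  have m0 := four _ hne0 L hL0 hL (v 2) (v 3) (v 4) (v 5) (g 2 3 4 (by decide) (by decide) (by decide))
      (g 2 3 5 (by decide) (by decide) (by decide)) (g 2 4 5 (by decide) (by decide) (by decide))
      (g 3 4 5 (by decide) (by decide) (by decide)) ((h0 2).mpr (by decide)) ((h0 3).mpr (by decide))
      ((h0 4).mpr (by decide)) ((h0 5).mpr (by decide))
  have m2 := four _ hne2 L' hL'0 hL' (v 0) (v 1) (v 2) (v 3) (g 0 1 2 (by decide) (by decide) (by decide))
      (g 0 1 3 (by decide) (by decide) (by decide)) (g 0 2 3 (by decide) (by decide) (by decide))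
      (g 1 2 3 (by decide) (by decide) (by decide)) ((h2 0).mpr (by decide)) ((h2 1).mpr (by decide))
      ((h2 2).mpr (by decide)) ((h2 3).mpr (by decide))
  rcases m0 with ⟨k, k'⟩ | m0
  · -- kind A at the bottom
    have h3 := kindA v H.gp F0 F1 F2 α M hα0 hαM hT h0 h1 h2 L hL0 hL hrL L' hL'0 hL' hrL' k k'
    exact ⟨L, hL0, hfin L hL (fun w => (h3 w).1) (fun w => (h3 w).2), 2, 3, 4, 5, by decide, by decide, by decide,
      by decide, by decide, by decide, k, k'⟩
  rcases m2 with ⟨k, k'⟩ | m2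
  · -- kind A at the top
    have hT' : ∀ T : E, disc (fun m => F2 m + T ^ (M - α) * F1 m + T ^ M * F0 m) = 0 := by
      intro T
      by_cases hT0 : T = 0
      · rw [hT0]
        have : (fun m => F2 m + (0 : E) ^ (M - α) * F1 m + 0 ^ M * F0 m) = F2 := by
          funext m
          rw [zero_pow (by omega), zero_pow (by omega)]
          ring
        rw [this]
        exact d2
      · have h3 := hT T⁻¹
        have h4 : (fun m => F2 m + T ^ (M - α) * F1 m + T ^ M * F0 m) =
            fun m => T ^ M * (F0 m + T⁻¹ ^ α * F1 m + T⁻¹ ^ M * F2 m) := by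
          funext m
          have e1 : T ^ M * T⁻¹ ^ α = T ^ (M - α) := by
            rw [inv_pow, ← div_eq_mul_inv, div_eq_iff (pow_ne_zero _ hT0), ← pow_add]
            congr 1
            omega
          have e2 : T ^ M * T⁻¹ ^ M = 1 := by
            rw [inv_pow, mul_inv_cancel₀ (pow_ne_zero _ hT0)]
          linear_combination (- F1 m) * e1 - F2 m * e2
        rw [h4, disc_smul, h3, mul_zero]
    have r : ∀ i, Fin.revPerm (i : Fin 6) = Fin.rev i := fun i => rfl
    have hrev : ∀ F : Fin 6 → E, ∀ a b : Fin 6, (∀ i, val F (v i) = 0 ↔ i ≠ a ∧ i ≠ b) →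
        ∀ i, val F (v (Fin.rev i)) = 0 ↔ i ≠ Fin.rev b ∧ i ≠ Fin.rev a := by
      intro F a b hF i
      rw [hF]
      constructor
      · rintro ⟨x, y⟩
        exact ⟨fun h => y (by rw [h, Fin.rev_rev]), fun h => x (by rw [h, Fin.rev_rev])⟩
      · rintro ⟨x, y⟩
        exact ⟨fun h => y (by rw [← h, Fin.rev_rev]), fun h => x (by rw [← h, Fin.rev_rev])⟩
    have h3 := kindA (fun i => v (Fin.rev i)) (gp_perm v H.gp _ Fin.rev_injective) F2 F1 F0 (M - α) M (by omega)
      (by omega) hT' (hrev F2 4 5 h2) (hrev F1 2 3 h1) (hrev F0 0 1 h0) L' hL'0 hL' hrL' L hL0 hL hrL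
      (show det3 (v 3) (v 2) L' = 0 by rw [EX36.det3_swap12, k', neg_zero])
      (show det3 (v 1) (v 0) L' = 0 by rw [EX36.det3_swap12, k, neg_zero])
    exact ⟨L', hL'0, hfin L' (fun w => (h3 w).2) (fun w => (h3 w).1) hL', 0, 1, 2, 3, by decide, by decide, by decide,
      by decide, by decide, by decide, k, k'⟩
  -- kind B
  exfalso
  have hperm : ∀ σ : Equiv.Perm (Fin 6), (∀ i, (σ i ≠ 0 ∧ σ i ≠ 1 ↔ i ≠ 0 ∧ i ≠ 1) ∧ (σ i ≠ 2 ∧ σ i ≠ 3 ↔ i ≠ 2 ∧ i ≠ 3) ∧
      (σ i ≠ 4 ∧ σ i ≠ 5 ↔ i ≠ 4 ∧ i ≠ 5)) → det3 (v (σ 2)) (v (σ 4)) L = 0 → det3 (v (σ 3)) (v (σ 5)) L = 0 →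
      det3 (v (σ 0)) (v (σ 2)) L' = 0 → det3 (v (σ 1)) (v (σ 3)) L' = 0 → False := by
    intro σ hσ k1 k2 k3 k4
    exact kindB (fun i => v (σ i)) (gp_perm v H.gp _ σ.injective) (nc_perm v H.nc _ σ.surjective) F0 F1 F2 α M hα0 hαM
      hT (fun i => (h0 _).trans (hσ i).1) (fun i => (h1 _).trans (hσ i).2.1) (fun i => (h2 _).trans (hσ i).2.2)
      L hL0 hL hrL L' hL'0 hL' hrL' k1 k2 k3 k4
  have sw : ∀ x y : Fin 3 → E, ∀ L : Fin 3 → E, det3 x y L = 0 → det3 y x L = 0 := by
    intro x y L h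
    rw [EX36.det3_swap12, h, neg_zero]
  rcases m0 with ⟨k, k'⟩ | ⟨k, k'⟩ <;> rcases m2 with ⟨l, l'⟩ | ⟨l, l'⟩
  · exact hperm (Equiv.refl _) (by decide) k k' l l'
  · exact hperm (Equiv.swap 0 1) (by decide) k k' l' l
  · exact hperm (Equiv.swap 4 5) (by decide) k k' l l'
  · exact hperm (Equiv.swap 0 1 * Equiv.swap 4 5) (by decide) k k' l' l

theorem core_mono (H : Hyp v q n) : Concl v q := by
  obtain ⟨l1, l2, l3, l4, l5⟩ := H.le
  have e01 := H.e01
  have e45 := H.e45
  have hlt := H.lt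
  by_cases h12 : n 1 < n 2
  · have h23 := H.second h12
    by_cases h34 : n 3 < n 4
    · exact H.three h12 h23 h34
    · exact H.two (by omega) (Or.inr (by omega))
  · by_cases h34 : n 3 < n 4
    · have h23 := H.second' h34
      -- four and two: reverse
      have h4 := (hyp_rev v q n H).two
      have r0 : (Fin.revPerm (0 : Fin 6)) = 5 := by decide
      have r2 : (Fin.revPerm (2 : Fin 6)) = 3 := by decide
      have r3 : (Fin.revPerm (3 : Fin 6)) = 2 := by decide
      have r5 : (Fin.revPerm (5 : Fin 6)) = 0 := by decide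
      simp only [r0, r2, r3, r5] at h4
      exact concl_perm v q Fin.revPerm (h4 (by omega) (Or.inr (by omega)))
    · exact H.two (by omega) (Or.inl (by omega))

end

/-- THE CORE -/
theorem core (v : Fin 6 → Fin 3 → E) (hv : GP6 v) (hnc : NC6 v) (q : Fin 6 → Fin 6 → E)
    (h1 : ∀ i j, val (q i) (v j) = 0 ↔ i ≠ j) (n : Fin 6 → ℤ) (hn : ∃ i j, n i ≠ n j)
    (h : ∀ T : E, T ≠ 0 → disc (fun m => ∑ i, T ^ n i * q i m) = 0) :
    ∃ L : Fin 3 → E, L ≠ 0 ∧ (∀ w, bil (fun m => ∑ i, q i m) L w = 0) ∧ ∃ a b c d : Fin 6,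
      a ≠ b ∧ a ≠ c ∧ a ≠ d ∧ b ≠ c ∧ b ≠ d ∧ c ≠ d ∧ det3 (v a) (v b) L = 0 ∧ det3 (v c) (v d) L = 0 := by
  set σ := Tuple.sort n with hσ
  have hmono : Monotone (fun i => n (σ i)) := Tuple.monotone_sort n
  refine concl_perm v q σ (core_mono (n := fun i => n (σ i)) ⟨gp_perm v hv _ σ.injective, nc_perm v hnc _ σ.surjective,
    fun i j => (h1 _ _).trans (not_congr σ.injective.eq_iff), hmono, ?_, ?_⟩)
  · obtain ⟨i, j, hij⟩ := hn
    by_contra hcon
    push Not at hcon
    refine hij ?_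
    have h3 : ∀ i, n (σ i) = n (σ 0) := by
      intro i
      have h4 : n (σ 0) ≤ n (σ i) := hmono (Fin.zero_le i)
      have h5 : n (σ i) ≤ n (σ 5) := hmono (Fin.le_last i)
      have h6 : n (σ 5) ≤ n (σ 0) := hcon
      omega
    rw [← σ.apply_symm_apply i, ← σ.apply_symm_apply j]
    exact (h3 _).trans (h3 _).symm
  · intro T hT
    have h3 : (fun m => ∑ i, T ^ n (σ i) * q (σ i) m) = fun m => ∑ i, T ^ n i * q i m := by
      funext m
      exact Equiv.sum_comp σ fun i => T ^ n i * q i m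
    rw [h3]
    exact h T hT

end Pool.Agent.EX36
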