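import Pool.Agent.Helper36.EX.Tools

/-!
# EX, block B5: the lowest and the highest levels of a family
-/

set_option autoImplicit false
set_option linter.unusedSectionVars false

namespace Pool.Agent.EX36

open Pool.Agent.EX Polynomial

section ring

variable {R S : Type*} [CommRing R] [CommRing S]

theorem disc_map (f : R →+* S) (q : Fin 6 → R) : f (disc q) = disc fun m => f (q m) := by
  simp only [disc, map_add, map_sub, map_mul, map_pow, map_ofNat]

theorem dd_map (f : R →+* S) (q r : Fin 6 → R) : f (dd q r) = dd (fun m => f (q m)) fun m => f (r m) := by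
  simp only [dd, map_add, map_sub, map_mul, map_pow, map_ofNat]

theorem disc_smul (c : R) (q : Fin 6 → R) : disc (fun m => c * q m) = c ^ 3 * disc q := by
  simp only [disc]; ring

theorem disc_two' (q r : Fin 6 → R) (T : R) : disc (fun m => q m + T * r m) =
    disc q + T * dd q r + T ^ 2 * dd r q + T ^ 3 * disc r := by
  simp only [disc, dd]
  ring

theorem dd_add (q r s : Fin 6 → R) (T : R) : dd q (fun m => r m + T * s m) = dd q r + T * dd q s := by
  simp only [dd]
  ring

end ring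

variable {E : Type*} [Field E] [CharZero E]

/-- the sum over a level -/
def A (q : Fin 6 → Fin 6 → E) (n : Fin 6 → ℤ) (a : ℤ) : Fin 6 → E := fun m => ∑ i, if n i = a then q i m else 0

theorem low0 (A0 A1 : Fin 6 → E) (R : Fin 6 → E[X]) (c : ℕ)
    (h : disc (fun m => C (A0 m) + X ^ (c + 1) * (C (A1 m) + X * R m)) = 0) : disc A0 = 0 ∧ dd A0 A1 = 0 := by
  rw [disc_two', dd_add] at h
  have h1 : ∀ q : Fin 6 → E, disc (fun m => (C (q m) : E[X])) = C (disc q) := fun q => (disc_map C q).symm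
  have h2 : ∀ q r : Fin 6 → E, dd (fun m => (C (q m) : E[X])) (fun m => C (r m)) = C (dd q r) :=
    fun q r => (dd_map C q r).symm
  rw [h1, h2] at h
  have h3 : disc A0 = 0 := by
    have h4 := congrArg (Polynomial.eval 0) h
    simpa using h4
  refine ⟨h3, ?_⟩
  rw [h3, map_zero, zero_add] at h
  set r : Fin 6 → E[X] := fun m => C (A1 m) + X * R m with hr
  have h5 : (X : E[X]) ^ (c + 1) * (C (dd A0 A1) + X * (dd (fun m => C (A0 m)) R + X ^ c * dd r (fun m => C (A0 m)) +
      X ^ (c + 1 + c) * disc r)) = 0 := by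
    rw [← h]
    ring
  have h6 := (mul_eq_zero.mp h5).resolve_left (pow_ne_zero _ X_ne_zero)
  have h7 := congrArg (Polynomial.eval 0) h6
  simpa using h7

theorem low (q : Fin 6 → Fin 6 → E) (n : Fin 6 → ℤ) (h : ∀ T : E, T ≠ 0 → disc (fun m => ∑ i, T ^ n i * q i m) = 0)
    (a b : ℤ) (hab : a < b) (ha : ∀ i, n i = a ∨ b ≤ n i) : disc (A q n a) = 0 ∧ dd (A q n a) (A q n b) = 0 := by
  obtain ⟨c, hc⟩ : ∃ c : ℕ, b = a + (c + 1 : ℕ) := ⟨(b - a - 1).toNat, by push_cast; omega⟩
  have hk : ∀ i, ∃ k : ℕ, n i = a + k ∧ (k = 0 ↔ n i = a) ∧ (k = c + 1 ↔ n i = b) ∧ (k = 0 ∨ c + 1 ≤ k) := by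
    intro i
    refine ⟨(n i - a).toNat, ?_, ?_, ?_, ?_⟩ <;> rcases ha i with h1 | h1 <;> omega
  choose k hk1 hk2 hk3 hk4 using hk
  set R : Fin 6 → E[X] := fun m => ∑ i, if n i = a ∨ n i = b then 0 else X ^ (k i - (c + 2)) * C (q i m) with hR
  have hF : ∀ m, ∑ i, X ^ k i * C (q i m) = C (A q n a m) + X ^ (c + 1) * (C (A q n b m) + X * R m) := by
    intro m
    simp only [A, hR, map_sum, Finset.mul_sum, mul_add, ← Finset.sum_add_distrib]
    refine Finset.sum_congr rfl fun i _ => ?_
    by_cases h1 : n i = a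
    · have h2 : k i = 0 := (hk2 i).mpr h1
      have h3 : n i ≠ b := by omega
      simp [h1, h2]
      intro h4; omega
    · by_cases h2 : n i = b
      · have h3 : k i = c + 1 := (hk3 i).mpr h2
        simp [h2, h3]
        intro h4; omega
      · have h3 : k i ≠ 0 := fun h4 => h1 ((hk2 i).mp h4)
        have h4 : k i ≠ c + 1 := fun h4 => h2 ((hk3 i).mp h4)
        have h5 : c + 2 ≤ k i := by
          rcases hk4 i with h6 | h6 <;> omega
        simp only [h1, h2, if_false, map_zero, mul_zero, zero_add, or_self]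
        rw [← mul_assoc, ← mul_assoc, ← pow_succ, ← pow_add]
        congr 2
        omega
  refine low0 (A q n a) (A q n b) R c ?_
  rw [show (fun m => C (A q n a m) + X ^ (c + 1) * (C (A q n b m) + X * R m)) = fun m => ∑ i, X ^ k i * C (q i m) from
    funext fun m => (hF m).symm]
  have h1 : (X : E[X]) * disc (fun m => ∑ i, X ^ k i * C (q i m)) = 0 := by
    refine Polynomial.funext fun T => ?_
    rw [eval_mul, eval_X, eval_zero]
    by_cases hT : T = 0
    · rw [hT, zero_mul]
    · have h2 : Polynomial.eval T (disc (fun m => ∑ i, X ^ k i * C (q i m))) = disc (fun m => ∑ i, T ^ k i * q i m) := by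
        have h3 := disc_map (Polynomial.evalRingHom T) (fun m => ∑ i, X ^ k i * C (q i m))
        rw [Polynomial.coe_evalRingHom] at h3
        rw [h3]
        congr 1
        funext m
        rw [Polynomial.eval_finsetSum]
        refine Finset.sum_congr rfl fun i _ => ?_
        rw [Polynomial.eval_mul, Polynomial.eval_pow, Polynomial.eval_X, Polynomial.eval_C]
      rw [h2]
      have h4 : (fun m => ∑ i, T ^ k i * q i m) = fun m => T ^ (-a) * ∑ i, T ^ n i * q i m := by
        funext m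
        rw [Finset.mul_sum]
        refine Finset.sum_congr rfl fun i _ => ?_
        rw [hk1 i, zpow_add₀ hT, zpow_natCast, ← mul_assoc, ← mul_assoc, ← zpow_add₀ hT, neg_add_cancel, zpow_zero, one_mul]
      rw [h4, disc_smul, h T hT, mul_zero, mul_zero]
  exact (mul_eq_zero.mp h1).resolve_left X_ne_zero

theorem A_neg (q : Fin 6 → Fin 6 → E) (n : Fin 6 → ℤ) (a : ℤ) : A q (fun i => - n i) (-a) = A q n a := by
  funext m
  simp [A]

theorem high (q : Fin 6 → Fin 6 → E) (n : Fin 6 → ℤ) (h : ∀ T : E, T ≠ 0 → disc (fun m => ∑ i, T ^ n i * q i m) = 0)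
    (a b : ℤ) (hab : b < a) (ha : ∀ i, n i = a ∨ n i ≤ b) : disc (A q n a) = 0 ∧ dd (A q n a) (A q n b) = 0 := by
  have h1 := low q (fun i => - n i) (fun T hT => by
    have h2 := h T⁻¹ (inv_ne_zero hT)
    simpa [zpow_neg] using h2) (-a) (-b) (by omega) (fun i => by rcases ha i with h3 | h3 <;> omega)
  rwa [A_neg, A_neg] at h1

theorem val_A (q : Fin 6 → Fin 6 → E) (n : Fin 6 → ℤ) (a : ℤ) (v : Fin 3 → E) :
    val (A q n a) v = ∑ i, if n i = a then val (q i) v else 0 := by
  simp only [val, A, Finset.sum_mul, ← Finset.sum_add_distrib]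
  refine Finset.sum_congr rfl fun i _ => ?_
  by_cases h : n i = a <;> simp [h]

theorem val_A_eq (q : Fin 6 → Fin 6 → E) (n : Fin 6 → ℤ) (a : ℤ) (v : Fin 6 → Fin 3 → E)
    (h1 : ∀ i j, val (q i) (v j) = 0 ↔ i ≠ j) (j : Fin 6) :
    val (A q n a) (v j) = if n j = a then val (q j) (v j) else 0 := by
  rw [val_A, Finset.sum_eq_single j]
  · intro i _ hij
    rw [(h1 i j).mpr hij]
    simp
  · intro h; exact absurd (Finset.mem_univ _) h

theorem val_A_iff (q : Fin 6 → Fin 6 → E) (n : Fin 6 → ℤ) (a : ℤ) (v : Fin 6 → Fin 3 → E)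
    (h1 : ∀ i j, val (q i) (v j) = 0 ↔ i ≠ j) (j : Fin 6) : val (A q n a) (v j) = 0 ↔ n j ≠ a := by
  rw [val_A_eq q n a v h1]
  by_cases h : n j = a
  · simp only [h, if_true, ne_eq, not_true, iff_false]
    intro h2
    exact ((h1 j j).mp h2) rfl
  · simp [h]

theorem A_ne (q : Fin 6 → Fin 6 → E) (n : Fin 6 → ℤ) (a : ℤ) (v : Fin 6 → Fin 3 → E)
    (h1 : ∀ i j, val (q i) (v j) = 0 ↔ i ≠ j) (j : Fin 6) (hj : n j = a) : A q n a ≠ 0 := by
  intro h
  have h2 := (val_A_iff q n a v h1 j).not.mpr (by simp [hj])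
  rw [h] at h2
  exact h2 (by simp [val])

/-- a level with one element is not singular -/
theorem single (q : Fin 6 → Fin 6 → E) (n : Fin 6 → ℤ) (a : ℤ) (v : Fin 6 → Fin 3 → E) (hv : GP6 v)
    (h1 : ∀ i j, val (q i) (v j) = 0 ↔ i ≠ j) (j : Fin 6) (hj : n j = a) (hs : ∀ i, n i = a → i = j) :
    disc (A q n a) ≠ 0 := by
  refine five (fun i : Fin 5 => v (j.succAbove i)) ?_ _ (A_ne q n a v h1 j hj) ?_
  · intro x y z hxy hxz hyz
    exact hv _ _ _ (fun h => hxy (Fin.succAbove_right_injective h)) (fun h => hxz (Fin.succAbove_right_injective h))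
      (fun h => hyz (Fin.succAbove_right_injective h))
  · intro i
    exact (val_A_iff q n a v h1 _).mpr fun h => Fin.succAbove_ne j i (hs _ h)

end Pool.Agent.EX36
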