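import Pool.Agent.Helper36.EX.Defs

/-!
# EX: tools, dual basis (A2), kernels (B1), pencils (B2)
-/

set_option autoImplicit false
set_option linter.unusedSectionVars false

namespace Pool.Agent.EX36

open Pool.Agent.EX

section ring

variable {R : Type*} [CommRing R]

theorem cramer3 (a b c v : Fin 3 → R) (m : Fin 3) :
    det3 v b c * a m + det3 a v c * b m + det3 a b v * c m = det3 a b c * v m := by
  fin_cases m <;> simp [det3] <;> ring

theorem det3_swap12 (a b c : Fin 3 → R) : det3 b a c = - det3 a b c := by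
  simp only [det3]; ring

theorem det3_swap23 (a b c : Fin 3 → R) : det3 a c b = - det3 a b c := by
  simp only [det3]; ring

theorem det3_rot (a b c : Fin 3 → R) : det3 b c a = det3 a b c := by
  simp only [det3]; ring

theorem bil_comm (q : Fin 6 → R) (v w : Fin 3 → R) : bil q v w = bil q w v := by
  simp only [bil]; ring

theorem bil_lin (q : Fin 6 → R) (a b c w : Fin 3 → R) (x y z : R) :
    bil q (fun m => x * a m + y * b m + z * c m) w = x * bil q a w + y * bil q b w + z * bil q c w := by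
  simp only [bil]; ring

theorem bil_smul (q : Fin 6 → R) (a w : Fin 3 → R) (x : R) : bil q (fun m => x * a m) w = x * bil q a w := by
  simp only [bil]; ring

theorem val_smul (q : Fin 6 → R) (a : Fin 3 → R) (x : R) : val q (fun m => x * a m) = x ^ 2 * val q a := by
  simp only [val]; ring

theorem bil_self (q : Fin 6 → R) (a : Fin 3 → R) : bil q a a = 2 * val q a := by
  simp only [bil, val]; ring

theorem val_comb (q : Fin 6 → R) (a b c : Fin 3 → R) (x y z : R) :
    val q (fun m => x * a m + y * b m + z * c m) = x ^ 2 * val q a + y ^ 2 * val q b + z ^ 2 * val q c +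
      y * z * bil q b c + x * z * bil q a c + x * y * bil q a b := by
  simp only [bil, val]; ring

theorem val_of_pull (q : Fin 6 → R) (a b c v : Fin 3 → R) :
    det3 a b c ^ 2 * val q v = val (pull q a b c) ![det3 v b c, det3 a v c, det3 a b v] := by
  rw [val_pull, ← val_smul]
  congr 1
  funext m
  exact (cramer3 a b c v m).symm

theorem ext_val (q : Fin 6 → R) (h : ∀ v, val q v = 0) : q = 0 := by
  have h0 := h ![1, 0, 0]
  have h1 := h ![0, 1, 0]
  have h2 := h ![0, 0, 1]
  have h3 := h ![0, 1, 1]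
  have h4 := h ![1, 0, 1]
  have h5 := h ![1, 1, 0]
  simp only [val, Matrix.cons_val] at h0 h1 h2 h3 h4 h5
  funext m
  fin_cases m
  · show q 0 = 0
    linear_combination h0
  · show q 1 = 0
    linear_combination h1
  · show q 2 = 0
    linear_combination h2
  · show q 3 = 0
    linear_combination h3 - h1 - h2
  · show q 4 = 0
    linear_combination h4 - h0 - h2
  · show q 5 = 0
    linear_combination h5 - h0 - h1

end ring

section field

variable {E : Type*} [Field E]

theorem eq_zero_of_pull (q : Fin 6 → E) (a b c : Fin 3 → E) (hD : det3 a b c ≠ 0) (h : pull q a b c = 0) : q = 0 := by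
  refine ext_val q fun v => ?_
  have h1 := val_of_pull q a b c v
  rw [h] at h1
  have h2 : val (0 : Fin 6 → E) ![det3 v b c, det3 a v c, det3 a b v] = 0 := by simp [val]
  rw [h2] at h1
  exact (mul_eq_zero.mp h1).resolve_left (pow_ne_zero _ hD)

/-- a vector which is orthogonal to three independent vectors -/
theorem bil_eq_zero (q : Fin 6 → E) (L a b c : Fin 3 → E) (hD : det3 a b c ≠ 0) (ha : bil q L a = 0)
    (hb : bil q L b = 0) (hc : bil q L c = 0) (w : Fin 3 → E) : bil q L w = 0 := by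
  have h1 : det3 a b c * bil q L w = 0 := by
    rw [bil_comm, ← bil_smul]
    have h2 : (fun m => det3 a b c * w m) = fun m => det3 w b c * a m + det3 a w c * b m + det3 a b w * c m := by
      funext m
      exact (cramer3 a b c w m).symm
    rw [h2, bil_lin, bil_comm q a, bil_comm q b, bil_comm q c, ha, hb, hc]
    ring
  exact (mul_eq_zero.mp h1).resolve_left hD

/-- the matrix of monomials -/
def mon (v : Fin 3 → E) : Fin 6 → E := ![v 0 ^ 2, v 1 ^ 2, v 2 ^ 2, v 1 * v 2, v 0 * v 2, v 0 * v 1]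

theorem val_mon (q : Fin 6 → E) (v : Fin 3 → E) : val q v = ∑ m, mon v m * q m := by
  simp only [val, mon, Fin.sum_univ_succ, Fin.sum_univ_zero]
  simp only [Matrix.cons_val, Fin.succ_zero_eq_one, Fin.succ_one_eq_two]
  simp
  ring

/-- Block A2 -/
theorem exists_dual {K : Type*} [Field K] (ℓ : Fin 6 → Fin 3 → K) (h : NC6 ℓ) :
    ∃ G : Fin 6 → Fin 6 → K, (∀ i j, val (G i) (ℓ j) = if i = j then 1 else 0) ∧
      ∀ (R : Type*) [CommRing R] [Algebra K R] (q : Fin 6 → R) (m : Fin 6),
        q m = ∑ i, val q (fun j => algebraMap K R (ℓ i j)) * algebraMap K R (G i m) := by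
  classical
  set W : Matrix (Fin 6) (Fin 6) K := Matrix.of fun i m => mon (ℓ i) m with hW
  have hdet : W.det ≠ 0 := by
    intro h0
    obtain ⟨q, hq0, hq⟩ := Matrix.exists_mulVec_eq_zero_iff.mpr h0
    refine hq0 (h q fun j => ?_)
    rw [val_mon]
    exact congrFun hq j
  have hu : IsUnit W.det := isUnit_iff_ne_zero.mpr hdet
  have h1 : W * W⁻¹ = 1 := Matrix.mul_nonsing_inv W hu
  have h2 : W⁻¹ * W = 1 := Matrix.nonsing_inv_mul W hu
  refine ⟨fun i m => W⁻¹ m i, fun i j => ?_, fun R _ _ q m => ?_⟩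
  · rw [val_mon]
    have h3 := congrFun (congrFun h1 j) i
    rw [Matrix.mul_apply, Matrix.one_apply] at h3
    rw [show (if i = j then (1 : K) else 0) = if j = i then 1 else 0 by simp [eq_comm]]
    exact h3
  · have h3 : ∀ i, val q (fun j => algebraMap K R (ℓ i j)) = ∑ m', algebraMap K R (W i m') * q m' := by
      intro i
      simp only [hW, Matrix.of_apply, val, mon, Fin.sum_univ_succ, Fin.sum_univ_zero]
      simp only [Matrix.cons_val, Fin.succ_zero_eq_one, Fin.succ_one_eq_two]
      simp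
      ring
    have h4 : ∀ m', ∑ i, W⁻¹ m i * W i m' = if m = m' then 1 else 0 := by
      intro m'
      have h5 := congrFun (congrFun h2 m) m'
      rwa [Matrix.mul_apply, Matrix.one_apply] at h5
    symm
    calc ∑ i, val q (fun j => algebraMap K R (ℓ i j)) * algebraMap K R (W⁻¹ m i)
        = ∑ i, ∑ m', algebraMap K R (W⁻¹ m i * W i m') * q m' := by
          refine Finset.sum_congr rfl fun i _ => ?_
          rw [h3, Finset.sum_mul]
          refine Finset.sum_congr rfl fun m' _ => ?_
          rw [map_mul]; ring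
      _ = ∑ m', algebraMap K R (∑ i, W⁻¹ m i * W i m') * q m' := by
          rw [Finset.sum_comm]
          refine Finset.sum_congr rfl fun m' _ => ?_
          rw [map_sum, Finset.sum_mul]
      _ = q m := by
          rw [Finset.sum_eq_single m]
          · rw [h4, if_pos rfl, map_one, one_mul]
          · intro m' _ hm'
            rw [h4, if_neg (Ne.symm hm'), map_zero, zero_mul]
          · intro h5; exact absurd (Finset.mem_univ _) h5

end field

section char

variable {E : Type*} [Field E] [CharZero E]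

theorem exists_ker (q : Fin 6 → E) (h : disc q = 0) : ∃ L : Fin 3 → E, L ≠ 0 ∧ ∀ w, bil q L w = 0 := by
  set B : Matrix (Fin 3) (Fin 3) E := !![2 * q 0, q 5, q 4; q 5, 2 * q 1, q 3; q 4, q 3, 2 * q 2] with hB
  have hdet : B.det = 0 := by
    have h1 : B.det = 2 * disc q := by
      rw [hB, Matrix.det_fin_three]
      simp only [Matrix.of_apply, Matrix.cons_val', Matrix.cons_val, disc]
      ring
    rw [h1, h, mul_zero]
  obtain ⟨L, hL0, hL⟩ := Matrix.exists_mulVec_eq_zero_iff.mpr hdet
  refine ⟨L, hL0, fun w => ?_⟩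
  have h0 := congrFun hL 0
  have h1 := congrFun hL 1
  have h2 := congrFun hL 2
  simp only [hB, Matrix.mulVec, dotProduct, Fin.sum_univ_three, Matrix.of_apply, Matrix.cons_val', Matrix.cons_val,
    Pi.zero_apply] at h0 h1 h2
  simp only [bil]
  linear_combination w 0 * h0 + w 1 * h1 + w 2 * h2

theorem three (q : Fin 6 → E) (hq : q ≠ 0) (L : Fin 3 → E) (hL : ∀ w, bil q L w = 0) (a b c : Fin 3 → E)
    (ha : val q a = 0) (hb : val q b = 0) (hc : val q c = 0) : det3 a b L = 0 ∨ det3 a c L = 0 ∨ det3 b c L = 0 := by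
  by_contra hcon
  push Not at hcon
  obtain ⟨h1, h2, h3⟩ := hcon
  have hLL : val q L = 0 := by
    have := bil_self q L
    rw [hL L] at this
    have h2 : (2 : E) ≠ 0 := two_ne_zero
    exact (mul_eq_zero.mp this.symm).resolve_left h2
  have h4 := val_of_pull q a b L c
  rw [hc, mul_zero, val_pull, val_comb, ha, hb, hLL, bil_comm q b L, hL, bil_comm q a L, hL] at h4
  have h5 : bil q a b = 0 := by
    have h6 : det3 c b L ≠ 0 := by
      rw [det3_swap12]
      exact neg_ne_zero.mpr h3
    have h7 : det3 c b L * det3 a c L * bil q a b = 0 := by linear_combination -h4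
    rcases mul_eq_zero.mp h7 with h8 | h8
    · rcases mul_eq_zero.mp h8 with h9 | h9
      · exact absurd h9 h6
      · exact absurd h9 h2
    · exact h8
  refine hq (eq_zero_of_pull q a b L h1 ?_)
  funext m
  fin_cases m <;> simp [pull, ha, hb, hLL, h5, hL, bil_comm q b L, bil_comm q a L]

/-- a vector in two different lines is on their common point -/
theorem parallel (a b c L : Fin 3 → E) (habc : det3 a b c ≠ 0) (h1 : det3 a b L = 0) (h2 : det3 a c L = 0) :
    ∃ t : E, L = fun m => t * a m := by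
  refine ⟨det3 L b c / det3 a b c, ?_⟩
  funext m
  have h3 := cramer3 a b c L m
  rw [h1, show det3 a L c = 0 by rw [det3_swap23, h2, neg_zero]] at h3
  field_simp
  linear_combination -h3

theorem no_two (q : Fin 6 → E) (hq : q ≠ 0) (L : Fin 3 → E) (hL0 : L ≠ 0) (hL : ∀ w, bil q L w = 0) (a b c d : Fin 3 → E)
    (habc : det3 a b c ≠ 0) (habd : det3 a b d ≠ 0) (hacd : det3 a c d ≠ 0)
    (hb : val q b = 0) (hc : val q c = 0) (hd : val q d = 0) (h1 : det3 a b L = 0) (h2 : det3 a c L = 0) : False := by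
  obtain ⟨t, ht⟩ := parallel a b c L habc h1 h2
  have ht0 : t ≠ 0 := by
    rintro rfl
    refine hL0 (ht.trans ?_)
    funext m
    simp
  have h3 : ∀ b c : Fin 3 → E, det3 b c L = t * det3 a b c := by
    intro b c
    rw [ht]
    simp only [det3]
    ring
  rcases three q hq L hL b c d hb hc hd with h4 | h4 | h4
  · rw [h3] at h4
    exact (mul_ne_zero ht0 habc) h4
  · rw [h3] at h4
    exact (mul_ne_zero ht0 habd) h4
  · rw [h3] at h4
    exact (mul_ne_zero ht0 hacd) h4

/-- four zeros: a perfect matching -/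
theorem four (q : Fin 6 → E) (hq : q ≠ 0) (L : Fin 3 → E) (hL0 : L ≠ 0) (hL : ∀ w, bil q L w = 0) (a b c d : Fin 3 → E)
    (habc : det3 a b c ≠ 0) (habd : det3 a b d ≠ 0) (hacd : det3 a c d ≠ 0) (hbcd : det3 b c d ≠ 0)
    (ha : val q a = 0) (hb : val q b = 0) (hc : val q c = 0) (hd : val q d = 0) :
    (det3 a b L = 0 ∧ det3 c d L = 0) ∨ (det3 a c L = 0 ∧ det3 b d L = 0) ∨ (det3 a d L = 0 ∧ det3 b c L = 0) := by
  have e1 : ∀ x y : Fin 3 → E, det3 x y L = 0 → det3 y x L = 0 := by
    intro x y h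
    rw [det3_swap12, h, neg_zero]
  have p : ∀ x y z : Fin 3 → E, det3 x y z ≠ 0 → det3 y x z ≠ 0 ∧ det3 x z y ≠ 0 ∧ det3 y z x ≠ 0 ∧ det3 z x y ≠ 0 ∧
      det3 z y x ≠ 0 := by
    intro x y z h
    refine ⟨?_, ?_, ?_, ?_, ?_⟩
    · rw [det3_swap12]; exact neg_ne_zero.mpr h
    · rw [det3_swap23]; exact neg_ne_zero.mpr h
    · rw [det3_rot]; exact h
    · rw [det3_rot, det3_rot]; exact h
    · rw [det3_swap12, det3_rot]; exact neg_ne_zero.mpr h
  have t1 := three q hq L hL a b c ha hb hc
  have t3 := three q hq L hL a c d ha hc hd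
  have t2 := three q hq L hL a b d ha hb hd
  have t4 := three q hq L hL b c d hb hc hd
  -- pairs with a common element
  have nab_ac : det3 a b L = 0 → det3 a c L = 0 → False := fun h h' =>
    no_two q hq L hL0 hL a b c d habc habd hacd hb hc hd h h'
  have nab_ad : det3 a b L = 0 → det3 a d L = 0 → False := fun h h' =>
    no_two q hq L hL0 hL a b d c habd habc (p _ _ _ hacd).2.1 hb hd hc h h'
  have nac_ad : det3 a c L = 0 → det3 a d L = 0 → False := fun h h' =>
    no_two q hq L hL0 hL a c d b hacd (p _ _ _ habc).2.1 (p _ _ _ habd).2.1 hc hd hb h h'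
  have nbc_bd : det3 b c L = 0 → det3 b d L = 0 → False := fun h h' =>
    no_two q hq L hL0 hL b c d a hbcd (p _ _ _ habc).2.2.1 (p _ _ _ habd).2.2.1 hc hd ha h h'
  have nac_bc : det3 a c L = 0 → det3 b c L = 0 → False := fun h h' =>
    no_two q hq L hL0 hL c a b d (p _ _ _ habc).2.2.2.1 (p _ _ _ hacd).1 (p _ _ _ hbcd).1 ha hb hd (e1 _ _ h) (e1 _ _ h')
  have nac_cd : det3 a c L = 0 → det3 c d L = 0 → False := fun h h' =>
    no_two q hq L hL0 hL c a d b (p _ _ _ hacd).1 (p _ _ _ habc).2.2.2.1 (p _ _ _ hbcd).2.2.1 ha hd hb (e1 _ _ h) h'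
  have nbc_cd : det3 b c L = 0 → det3 c d L = 0 → False := fun h h' =>
    no_two q hq L hL0 hL c b d a (p _ _ _ hbcd).1 (p _ _ _ habc).2.2.2.2 (p _ _ _ hacd).2.2.1 hb hd ha (e1 _ _ h) h'
  rcases t1 with h1 | h1 | h1
  · rcases t3 with h3 | h3 | h3
    · exact (nab_ac h1 h3).elim
    · exact (nab_ad h1 h3).elim
    · exact Or.inl ⟨h1, h3⟩
  · rcases t2 with h2 | h2 | h2
    · exact (nab_ac h2 h1).elim
    · exact (nac_ad h1 h2).elim
    · exact Or.inr (Or.inl ⟨h1, h2⟩)
  · rcases t3 with h3 | h3 | h3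
    · exact (nac_bc h3 h1).elim
    · exact Or.inr (Or.inr ⟨h3, h1⟩)
    · exact (nbc_cd h1 h3).elim

theorem five (v : Fin 5 → Fin 3 → E) (hv : ∀ a b c, a ≠ b → a ≠ c → b ≠ c → det3 (v a) (v b) (v c) ≠ 0)
    (q : Fin 6 → E) (hq : q ≠ 0) (h : ∀ i, val q (v i) = 0) : disc q ≠ 0 := by
  intro h0
  obtain ⟨L, hL0, hL⟩ := exists_ker q h0
  have e1 : ∀ x y : Fin 3 → E, det3 x y L = 0 → det3 y x L = 0 := by
    intro x y h
    rw [det3_swap12, h, neg_zero]
  have f : ∀ a b c d : Fin 5, a ≠ b → a ≠ c → a ≠ d → b ≠ c → b ≠ d → c ≠ d →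
      (det3 (v a) (v b) L = 0 ∧ det3 (v c) (v d) L = 0) ∨ (det3 (v a) (v c) L = 0 ∧ det3 (v b) (v d) L = 0) ∨
        (det3 (v a) (v d) L = 0 ∧ det3 (v b) (v c) L = 0) := fun a b c d hab hac had hbc hbd hcd =>
    four q hq L hL0 hL _ _ _ _ (hv a b c hab hac hbc) (hv a b d hab had hbd) (hv a c d hac had hcd)
      (hv b c d hbc hbd hcd) (h a) (h b) (h c) (h d)
  have nn : ∀ a b c : Fin 5, a ≠ b → a ≠ c → b ≠ c → det3 (v a) (v b) L = 0 → det3 (v a) (v c) L = 0 → False := by
    intro a b c hab hac hbc h1 h2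
    have hex : ∀ a b c : Fin 5, ∃ d : Fin 5, d ≠ a ∧ d ≠ b ∧ d ≠ c := by decide
    obtain ⟨d, hda, hdb, hdc⟩ := hex a b c
    exact no_two q hq L hL0 hL (v a) (v b) (v c) (v d) (hv a b c hab hac hbc) (hv a b d hab hda.symm hdb.symm)
      (hv a c d hac hda.symm hdc.symm) (h b) (h c) (h d) h1 h2
  have g1 := f 0 1 2 3 (by decide) (by decide) (by decide) (by decide) (by decide) (by decide)
  have g2 := f 0 1 2 4 (by decide) (by decide) (by decide) (by decide) (by decide) (by decide)
  have s := fun a b => e1 (v a) (v b)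
  have n1 := fun a b c hab hac hbc h1 h2 => nn a b c hab hac hbc h1 h2
  rcases g1 with ⟨k1, k2⟩ | ⟨k1, k2⟩ | ⟨k1, k2⟩ <;> rcases g2 with ⟨l1, l2⟩ | ⟨l1, l2⟩ | ⟨l1, l2⟩
  · exact n1 2 3 4 (by decide) (by decide) (by decide) k2 l2
  · exact n1 0 1 2 (by decide) (by decide) (by decide) k1 l1
  · exact n1 0 1 4 (by decide) (by decide) (by decide) k1 l1
  · exact n1 0 2 1 (by decide) (by decide) (by decide) k1 l1
  · exact n1 1 3 4 (by decide) (by decide) (by decide) k2 l2
  · exact n1 0 2 4 (by decide) (by decide) (by decide) k1 l1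
  · exact n1 0 3 1 (by decide) (by decide) (by decide) k1 l1
  · exact n1 0 3 2 (by decide) (by decide) (by decide) k1 l1
  · exact n1 0 3 4 (by decide) (by decide) (by decide) k1 l1

/-- the derivative is the value at the kernel -/
theorem val_ker (q r : Fin 6 → E) (hq : q ≠ 0) (a c L : Fin 3 → E) (hD : det3 a c L ≠ 0) (ha : val q a = 0)
    (hc : val q c = 0) (hL : ∀ w, bil q L w = 0) (hdd : dd q r = 0) : val r L = 0 ∧ bil q a c ≠ 0 := by
  have hLL : val q L = 0 := by
    have := bil_self q L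
    rw [hL L] at this
    exact (mul_eq_zero.mp this.symm).resolve_left two_ne_zero
  have hβ : bil q a c ≠ 0 := by
    intro h0
    refine hq (eq_zero_of_pull q a c L hD ?_)
    funext m
    fin_cases m <;> simp [pull, ha, hc, hLL, h0, hL, bil_comm q c L, bil_comm q a L]
  have h1 := dd_pull q r a c L
  rw [hdd, zero_mul] at h1
  have h2 : dd (pull q a c L) (pull r a c L) = - (bil q a c ^ 2 * val r L) := by
    simp only [dd, pull, Matrix.cons_val, ha, hc, hLL, hL, bil_comm q c L, bil_comm q a L]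
    ring
  rw [h2, neg_eq_zero] at h1
  exact ⟨(mul_eq_zero.mp h1).resolve_left (pow_ne_zero _ hβ), hβ⟩

theorem disc_two (q r : Fin 6 → E) (T : E) : disc (fun m => q m + T * r m) =
    disc q + T * dd q r + T ^ 2 * dd r q + T ^ 3 * disc r := by
  simp only [disc, dd]
  ring

theorem pencil_aux (q r : Fin 6 → E) (h : ∀ T : E, disc (fun m => q m + T * r m) = 0) (hq : q ≠ 0) (a c : Fin 3 → E)
    (ha : val q a = 0) (hc : val q c = 0) (hra : val r a ≠ 0) (hrc : val r c ≠ 0) (L : Fin 3 → E)
    (hL : ∀ w, bil q L w = 0) (hD : det3 a c L ≠ 0) : ∀ w, bil r L w = 0 := by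
  have h0 := h 0
  have h1 := h 1
  have h2 := h (-1)
  have h3 := h 2
  rw [disc_two] at h0 h1 h2 h3
  have hd0 : disc q = 0 := by linear_combination h0
  have hd2 : dd r q = 0 := by
    have : 2 * dd r q = 0 := by linear_combination h1 + h2 - 2 * hd0
    exact (mul_eq_zero.mp this).resolve_left two_ne_zero
  have hd3 : disc r = 0 := by
    have : 6 * disc r = 0 := by linear_combination h3 - hd0 - 4 * hd2 - (h1 - h2)
    exact (mul_eq_zero.mp this).resolve_left (by norm_num)
  have hd1 : dd q r = 0 := by linear_combination h1 - hd0 - hd2 - hd3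
  obtain ⟨hrL, hβ⟩ := val_ker q r hq a c L hD ha hc hL hd1
  have hLL : val q L = 0 := by
    have := bil_self q L
    rw [hL L] at this
    exact (mul_eq_zero.mp this.symm).resolve_left two_ne_zero
  -- the other two coefficients
  have e2 := dd_pull r q a c L
  rw [hd2, zero_mul] at e2
  have e3 := disc_pull r a c L
  rw [hd3, zero_mul] at e3
  have e2' : dd (pull r a c L) (pull q a c L) = bil r c L * bil r a L * bil q a c := by
    simp only [dd, pull, Matrix.cons_val, ha, hc, hLL, hL, bil_comm q c L, bil_comm q a L, hrL]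
    ring
  have e3' : disc (pull r a c L) = bil r c L * bil r a L * bil r a c - val r a * bil r c L ^ 2 -
      val r c * bil r a L ^ 2 := by
    simp only [disc, pull, Matrix.cons_val, hrL]
    ring
  rw [e2'] at e2
  rw [e3'] at e3
  have e4 : bil r c L * bil r a L = 0 := (mul_eq_zero.mp e2).resolve_right hβ
  have e5 : bil r c L = 0 ∧ bil r a L = 0 := by
    rcases mul_eq_zero.mp e4 with h5 | h5
    · refine ⟨h5, ?_⟩
      rw [h5] at e3
      have : val r c * bil r a L ^ 2 = 0 := by linear_combination -e3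
      exact pow_eq_zero_iff (two_ne_zero) |>.mp ((mul_eq_zero.mp this).resolve_left hrc)
    · refine ⟨?_, h5⟩
      rw [h5] at e3
      have : val r a * bil r c L ^ 2 = 0 := by linear_combination -e3
      exact pow_eq_zero_iff (two_ne_zero) |>.mp ((mul_eq_zero.mp this).resolve_left hra)
  refine bil_eq_zero r L a c L hD ?_ ?_ ?_
  · rw [bil_comm]; exact e5.2
  · rw [bil_comm]; exact e5.1
  · rw [bil_self, hrL, mul_zero]

/-- one of the determinants is not zero -/
theorem exists_pair (a b c L : Fin 3 → E) (habc : det3 a b c ≠ 0) (hL0 : L ≠ 0) :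
    det3 a b L ≠ 0 ∨ det3 a c L ≠ 0 ∨ det3 b c L ≠ 0 := by
  by_contra hcon
  push Not at hcon
  obtain ⟨h1, h2, h3⟩ := hcon
  refine hL0 ?_
  funext m
  have h4 := cramer3 a b c L m
  rw [h1, show det3 a L c = 0 by rw [det3_swap23, h2, neg_zero],
    show det3 L b c = 0 by rw [← det3_rot, h3]] at h4
  have h5 : det3 a b c * L m = 0 := by linear_combination -h4
  exact (mul_eq_zero.mp h5).resolve_left habc

theorem pencil (q r : Fin 6 → E) (h : ∀ T : E, disc (fun m => q m + T * r m) = 0) (hq : q ≠ 0) (a b c : Fin 3 → E)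
    (habc : det3 a b c ≠ 0) (ha : val q a = 0) (hb : val q b = 0) (hc : val q c = 0)
    (hra : val r a ≠ 0) (hrb : val r b ≠ 0) (hrc : val r c ≠ 0) (L : Fin 3 → E) (hL : ∀ w, bil q L w = 0) :
    ∀ w, bil r L w = 0 := by
  by_cases hL0 : L = 0
  · intro w
    rw [hL0]
    simp [bil]
  rcases exists_pair a b c L habc hL0 with h1 | h1 | h1
  · exact pencil_aux q r h hq a b ha hb hra hrb L hL h1
  · exact pencil_aux q r h hq a c ha hc hra hrc L hL h1
  · exact pencil_aux q r h hq b c hb hc hrb hrc L hL h1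

end char

end Pool.Agent.EX36
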